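import Pool.Agent.Q218.Local.Center
set_option autoImplicit false

/-!
# Representatives of all sign patterns

Finitely many nonzero functionals on a space of dimension `d` have at most `(|Φ| + 1) ^ d` sign
patterns in general position.
-/

namespace Pool.Agent.Q218.Local

open Finset Module

variable {E : Type*} [AddCommGroup E] [Module ℚ E] [FiniteDimensional ℚ E]

theorem sum_choose_le (N d : ℕ) : ∑ k ∈ range (d + 1), N.choose k ≤ (N + 1) ^ d := by
  rw [add_pow]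
  apply sum_le_sum
  intro k hk
  rw [mem_range] at hk
  have h1 : N.choose k ≤ N ^ k := Nat.choose_le_pow N k
  have h2 : 1 ≤ d.choose k := Nat.choose_pos (by omega)
  calc N.choose k ≤ N ^ k * 1 := by simpa using h1
    _ ≤ N ^ k * 1 ^ (d - k) * d.choose k := by
      rw [one_pow, mul_one]
      simpa using Nat.mul_le_mul_left (N ^ k) h2

open Classical in
/-- the sign patterns in general position -/
noncomputable def patterns (Φ : Finset (Module.Dual ℚ E)) :
    Finset (Finset (Module.Dual ℚ E)) :=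
  Φ.powerset.filter fun S => ∃ x : E, (∀ φ ∈ Φ, φ x ≠ 0) ∧ ∀ φ ∈ Φ, φ ∈ S ↔ 0 < φ x

omit [FiniteDimensional ℚ E] in
theorem mem_patterns {Φ : Finset (Module.Dual ℚ E)}
    {S : Finset (Module.Dual ℚ E)} : S ∈ patterns Φ ↔
      S ⊆ Φ ∧ ∃ x : E, (∀ φ ∈ Φ, φ x ≠ 0) ∧ ∀ φ ∈ Φ, φ ∈ S ↔ 0 < φ x := by
  classical
  simp only [patterns, mem_filter, mem_powerset]

theorem shatter_card [DecidableEq (Module.Dual ℚ E)] {Φ : Finset (Module.Dual ℚ E)}
    {T : Finset (Module.Dual ℚ E)} (hT : (patterns Φ).Shatters T) :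
    T ⊆ Φ ∧ T.card ≤ finrank ℚ E := by
  classical
  have hTΦ : T ⊆ Φ := by
    obtain ⟨S, hS, h⟩ := hT.exists_superset
    exact h.trans (mem_patterns.1 hS).1
  refine ⟨hTΦ, ?_⟩
  have hli : LinearIndependent ℚ (fun φ : T => (φ : Module.Dual ℚ E)) := by
    rw [Fintype.linearIndependent_iff]
    by_contra hne
    push Not at hne
    obtain ⟨g, hg, φ₀, hφ₀⟩ := hne
    -- we may assume that some coefficient is positive
    obtain ⟨g, hg, φ₀, hφ₀⟩ : ∃ g : T → ℚ, ∑ i, g i • (i : Module.Dual ℚ E) = 0 ∧ ∃ i, 0 < g i := by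
      rcases lt_or_gt_of_ne hφ₀ with h | h
      · refine ⟨fun i => -g i, ?_, φ₀, by simpa using h⟩
        simp only [neg_smul, sum_neg_distrib, hg, neg_zero]
      · exact ⟨g, hg, φ₀, h⟩
    obtain ⟨S, hS, hTS⟩ := hT (t := T.filter fun φ => ∃ h : φ ∈ T, 0 < g ⟨φ, h⟩) (filter_subset _ _)
    obtain ⟨_, x, hx, hSx⟩ := mem_patterns.1 hS
    have hpos : ∀ φ : T, 0 < g φ → 0 < (φ : Module.Dual ℚ E) x := by
      intro φ h
      rw [← hSx φ (hTΦ φ.2)]
      have : (φ : Module.Dual ℚ E) ∈ T ∩ S := by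
        rw [hTS, mem_filter]
        exact ⟨φ.2, φ.2, h⟩
      exact (mem_inter.1 this).2
    have hneg : ∀ φ : T, ¬ 0 < g φ → (φ : Module.Dual ℚ E) x ≤ 0 := by
      intro φ h
      by_contra hlt
      push Not at hlt
      have h1 := (hSx φ (hTΦ φ.2)).2 hlt
      have h2 : (φ : Module.Dual ℚ E) ∈ T ∩ S := mem_inter.2 ⟨φ.2, h1⟩
      rw [hTS, mem_filter] at h2
      obtain ⟨_, _, h3⟩ := h2
      exact h h3
    have hsum : ∑ i : T, g i * (i : Module.Dual ℚ E) x = 0 := by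
      have := congrArg (fun ψ : Module.Dual ℚ E => ψ x) hg
      simpa [LinearMap.sum_apply] using this
    have h0 : ∀ i : T, 0 ≤ g i * (i : Module.Dual ℚ E) x := by
      intro i
      by_cases h : 0 < g i
      · exact (mul_pos h (hpos i h)).le
      · exact mul_nonneg_of_nonpos_of_nonpos (not_lt.1 h) (hneg i h)
    have h1 : 0 < ∑ i : T, g i * (i : Module.Dual ℚ E) x :=
      sum_pos' (fun i _ => h0 i) ⟨φ₀, mem_univ _, mul_pos hφ₀ (hpos φ₀ hφ₀)⟩
    linarith
  have := hli.fintype_card_le_finrank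
  rwa [Fintype.card_coe, Subspace.dual_finrank_eq] at this

theorem card_patterns [DecidableEq (Module.Dual ℚ E)] (Φ : Finset (Module.Dual ℚ E)) :
    (patterns Φ).card ≤ (Φ.card + 1) ^ finrank ℚ E := by
  classical
  refine (card_le_card_shatterer _).trans (le_trans ?_ (sum_choose_le _ _))
  have h1 : (patterns Φ).shatterer ⊆ (range (finrank ℚ E + 1)).biUnion fun k => Φ.powersetCard k := by
    intro T hT
    obtain ⟨h1, h2⟩ := shatter_card (mem_shatterer.1 hT)
    rw [mem_biUnion]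
    exact ⟨T.card, mem_range.2 (by omega), mem_powersetCard.2 ⟨h1, rfl⟩⟩
  refine (card_le_card h1).trans (card_biUnion_le.trans (le_of_eq ?_))
  apply sum_congr rfl
  intro k _
  exact card_powersetCard _ _

/-- **Representatives of the sign patterns.** -/
theorem exists_reps (Φ : Finset (Module.Dual ℚ E)) (hΦ : ∀ φ ∈ Φ, φ ≠ 0) :
    ∃ R : Finset E, (∀ p ∈ R, ∀ φ ∈ Φ, φ p ≠ 0) ∧ R.card ≤ (Φ.card + 1) ^ finrank ℚ E ∧
      ∀ x : E, ∃ p ∈ R, ∀ φ ∈ Φ, (0 < φ x → 0 < φ p) ∧ (φ x < 0 → φ p < 0) := by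
  classical
  have hch : ∀ S : Finset (Module.Dual ℚ E), ∃ x : E, S ∈ patterns Φ →
      (∀ φ ∈ Φ, φ x ≠ 0) ∧ ∀ φ ∈ Φ, φ ∈ S ↔ 0 < φ x := by
    intro S
    by_cases hS : S ∈ patterns Φ
    · obtain ⟨_, x, hx⟩ := mem_patterns.1 hS
      exact ⟨x, fun _ => hx⟩
    · exact ⟨0, fun h => absurd h hS⟩
  choose r hr using hch
  refine ⟨(patterns Φ).image r, ?_, card_image_le.trans (card_patterns Φ), ?_⟩
  · intro p hp
    obtain ⟨S, hS, rfl⟩ := mem_image.1 hp
    exact (hr S hS).1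
  · intro x
    obtain ⟨g, hg⟩ := exists_generic Φ hΦ
    obtain ⟨x', hx'⟩ := exists_near Φ x g fun φ hφ => Or.inr (hg φ hφ)
    set S := Φ.filter fun φ => 0 < φ x' with hS
    have hSp : S ∈ patterns Φ := by
      rw [mem_patterns]
      exact ⟨filter_subset _ _, x', fun φ hφ => (hx' φ hφ).1, fun φ hφ => by simp [hS, hφ]⟩
    refine ⟨r S, mem_image_of_mem _ hSp, fun φ hφ => ⟨fun h => ?_, fun h => ?_⟩⟩
    · rw [← (hr S hSp).2 φ hφ, hS, mem_filter]
      exact ⟨hφ, (hx' φ hφ).2.1 h⟩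
    · have h1 := (hx' φ hφ).2.2 h
      have h2 : ¬ 0 < φ (r S) := by
        rw [← (hr S hSp).2 φ hφ, hS, mem_filter]
        exact fun h3 => absurd h3.2 h1.not_gt
      exact lt_of_le_of_ne (not_lt.1 h2) ((hr S hSp).1 φ hφ)

end Pool.Agent.Q218.Local
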