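import Pool.Agent.Q218.Local.Defs
import Pool.Agent.Q218.Local.Reps
set_option autoImplicit false

/-!
# Bases of the constraint matrix
-/

namespace Pool.Agent.Q218.Local

open Finset Module

variable {m n : ℕ} {a a' : Fin m → Fin n → ℚ} {B : Finset (Fin m)}

/-- the rows in `B` are a basis of the space -/
def Bas (a : Fin m → Fin n → ℚ) (B : Finset (Fin m)) : Prop :=
  B.card = n ∧ ∀ d : Fin n → ℚ, (∀ i ∈ B, a i ⬝ᵥ d = 0) → d = 0

/-- the values of the rows in `B` -/
def ev (a : Fin m → Fin n → ℚ) (B : Finset (Fin m)) : (Fin n → ℚ) →ₗ[ℚ] (B → ℚ) where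
  toFun x i := a i ⬝ᵥ x
  map_add' x y := by ext; simp [dotProduct_add]
  map_smul' c x := by ext; simp [dotProduct_smul]

theorem ev_inj (h : ∀ d : Fin n → ℚ, (∀ i ∈ B, a i ⬝ᵥ d = 0) → d = 0) :
    Function.Injective (ev a B) := by
  rw [← LinearMap.ker_eq_bot, LinearMap.ker_eq_bot']
  intro x hx
  exact h x fun i hi => congrFun hx ⟨i, hi⟩

theorem Bas.surj (h : Bas a B) : Function.Surjective (ev a B) := by
  have : finrank ℚ (Fin n → ℚ) = finrank ℚ (B → ℚ) := by simp [h.1]
  exact (LinearMap.injective_iff_surjective_of_finrank_eq_finrank this).1 (ev_inj h.2)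

theorem Bas.exists_dir (h : Bas a B) (i : Fin m) :
    ∃ d : Fin n → ℚ, ∀ j ∈ B, a j ⬝ᵥ d = if j = i then -1 else 0 := by
  obtain ⟨d, hd⟩ := h.surj fun j => if (j : Fin m) = i then -1 else 0
  exact ⟨d, fun j hj => congrFun hd ⟨j, hj⟩⟩

open Classical in
/-- the direction on which the row `i` of the basis `B` decreases and the others are constant -/
noncomputable def edir (a : Fin m → Fin n → ℚ) (B : Finset (Fin m)) (i : Fin m) : Fin n → ℚ :=
  if h : ∃ d : Fin n → ℚ, ∀ j ∈ B, a j ⬝ᵥ d = if j = i then -1 else 0 then h.choose else 0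

theorem Bas.edir_spec (h : Bas a B) (i : Fin m) {j : Fin m} (hj : j ∈ B) :
    a j ⬝ᵥ edir a B i = if j = i then -1 else 0 := by
  have h' := h.exists_dir i
  rw [edir, dif_pos h']
  exact h'.choose_spec j hj

theorem Bas.edir_unique (h : Bas a B) {i : Fin m} {d : Fin n → ℚ}
    (hd : ∀ j ∈ B, a j ⬝ᵥ d = if j = i then -1 else 0) : d = edir a B i := by
  have := h.2 (d - edir a B i) fun j hj => by
    rw [dotProduct_sub, hd j hj, h.edir_spec i hj, sub_self]
  exact sub_eq_zero.1 this

theorem Bas.congr (h : Bas a B) (hab : ∀ i ∈ B, a i = a' i) : Bas a' B :=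
  ⟨h.1, fun d hd => h.2 d fun i hi => by rw [hab i hi]; exact hd i hi⟩

theorem Bas.edir_congr (h : Bas a B) (hab : ∀ i ∈ B, a i = a' i) (i : Fin m) :
    edir a B i = edir a' B i := by
  refine (h.congr hab).edir_unique fun j hj => ?_
  rw [← hab j hj]
  exact h.edir_spec i hj

theorem Bas.expand (h : Bas a B) (x : Fin n → ℚ) : x = -∑ j ∈ B, (a j ⬝ᵥ x) • edir a B j := by
  have := h.2 (x + ∑ j ∈ B, (a j ⬝ᵥ x) • edir a B j) fun i hi => by
    rw [dotProduct_add, dotProduct_sum]
    have : ∀ j ∈ B, a i ⬝ᵥ ((a j ⬝ᵥ x) • edir a B j) = if i = j then -(a i ⬝ᵥ x) else 0 := by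
      intro j _
      rw [dotProduct_smul, h.edir_spec j hi, smul_eq_mul]
      split_ifs with hij
      · rw [hij]; ring
      · ring
    rw [sum_congr rfl this, sum_ite_eq, if_pos hi]
    ring
  exact eq_neg_of_add_eq_zero_left this

theorem Bas.edir_ne_zero (h : Bas a B) {i : Fin m} (hi : i ∈ B) : edir a B i ≠ 0 := by
  intro h0
  have := h.edir_spec i hi
  rw [h0, dotProduct_zero, if_pos rfl] at this
  norm_num at this

/-- zero rows are not in a basis -/
theorem Bas.row_ne_zero (h : Bas a B) {i : Fin m} (hi : i ∈ B) : a i ≠ 0 := by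
  intro h0
  have := h.edir_spec i hi
  rw [h0, zero_dotProduct, if_pos rfl] at this
  norm_num at this

theorem exists_bas (T : Finset (Fin m)) :
    (∀ d : Fin n → ℚ, (∀ i ∈ T, a i ⬝ᵥ d = 0) → d = 0) → ∃ B ⊆ T, Bas a B := by
  induction T using Finset.strongInduction with
  | H T ih =>
    intro hT
    by_cases h : ∃ i ∈ T, ∀ d : Fin n → ℚ, (∀ j ∈ T.erase i, a j ⬝ᵥ d = 0) → d = 0
    · obtain ⟨i, hi, h⟩ := h
      obtain ⟨B, hB, hb⟩ := ih (T.erase i) (erase_ssubset hi) h
      exact ⟨B, hB.trans (erase_subset _ _), hb⟩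
    · push Not at h
      choose! d hd using h
      refine ⟨T, Subset.refl _, ?_, hT⟩
      have hne : ∀ i ∈ T, a i ⬝ᵥ d i ≠ 0 := by
        intro i hi h0
        refine (hd i hi).2 (hT _ fun j hj => ?_)
        by_cases hji : j = i
        · rw [hji]; exact h0
        · exact (hd i hi).1 j (mem_erase.2 ⟨hji, hj⟩)
      have hsurj : Function.Surjective (ev a T) := by
        intro f
        refine ⟨∑ i : T, (f i / (a i ⬝ᵥ d i)) • d i, ?_⟩
        ext j
        change a j ⬝ᵥ (∑ i : T, (f i / (a i ⬝ᵥ d i)) • d i) = f j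
        rw [dotProduct_sum]
        have : ∀ i : T, i ∈ univ → a j ⬝ᵥ ((f i / (a i ⬝ᵥ d i)) • d i) = if i = j then f j else 0 := by
          intro i _
          rw [dotProduct_smul, smul_eq_mul]
          split_ifs with hij
          · subst hij
            exact div_mul_cancel₀ _ (hne i i.2)
          · rw [(hd i i.2).1 j (mem_erase.2 ⟨fun h => hij (Subtype.ext h.symm), j.2⟩), mul_zero]
        rw [sum_congr rfl this, sum_ite_eq', if_pos (mem_univ _)]
      have := (LinearEquiv.ofBijective (ev a T) ⟨ev_inj hT, hsurj⟩).finrank_eq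
      simpa using this.symm

/-- the slack of the constraint `k` at the basic solution of `B`, as a function of the right-hand
side -/
noncomputable def psi (a : Fin m → Fin n → ℚ) (B : Finset (Fin m)) (k : Fin m) :
    Module.Dual ℚ (Fin m → ℚ) where
  toFun b := b k + ∑ j ∈ B, (a k ⬝ᵥ edir a B j) * b j
  map_add' x y := by
    simp only [Pi.add_apply, mul_add, sum_add_distrib]
    ring
  map_smul' c x := by
    simp only [Pi.smul_apply, smul_eq_mul, RingHom.id_apply, mul_add, mul_sum]
    congr 1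
    apply sum_congr rfl
    intro j _
    ring

theorem psi_apply (k : Fin m) (b : Fin m → ℚ) :
    psi a B k b = b k + ∑ j ∈ B, (a k ⬝ᵥ edir a B j) * b j := rfl

/-- the value of the objective function on the edge directions -/
noncomputable def phi (a : Fin m → Fin n → ℚ) (B : Finset (Fin m)) (i : Fin m) :
    Module.Dual ℚ (Fin n → ℚ) where
  toFun c := c ⬝ᵥ edir a B i
  map_add' x y := by simp [add_dotProduct]
  map_smul' c x := by simp [smul_dotProduct]

theorem phi_apply (i : Fin m) (c : Fin n → ℚ) : phi a B i c = c ⬝ᵥ edir a B i := rfl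

theorem psi_ne_zero {k : Fin m} (hk : k ∉ B) : psi a B k ≠ 0 := by
  intro h
  have := congrArg (fun φ : Module.Dual ℚ (Fin m → ℚ) => φ (Pi.single k 1)) h
  simp only [psi_apply, LinearMap.zero_apply, Pi.single_eq_same] at this
  rw [sum_eq_zero] at this
  · norm_num at this
  · intro j hj
    rw [Pi.single_eq_of_ne (by rintro rfl; exact hk hj), mul_zero]

theorem phi_ne_zero (h : Bas a B) {i : Fin m} (hi : i ∈ B) : phi a B i ≠ 0 := by
  intro h0
  have := congrArg (fun φ : Module.Dual ℚ (Fin n → ℚ) => φ (edir a B i)) h0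
  simp only [phi_apply, LinearMap.zero_apply] at this
  exact h.edir_ne_zero hi (dotProduct_self_eq_zero.1 this)

/-- the basic solution of `B` -/
noncomputable def pt (a : Fin m → Fin n → ℚ) (B : Finset (Fin m)) (b : Fin m → ℚ) : Fin n → ℚ :=
  -∑ j ∈ B, b j • edir a B j

theorem slack (k : Fin m) (b : Fin m → ℚ) : b k - a k ⬝ᵥ pt a B b = psi a B k b := by
  rw [psi_apply, pt, dotProduct_neg, dotProduct_sum, sub_neg_eq_add]
  congr 1
  apply sum_congr rfl
  intro j _
  rw [dotProduct_smul, smul_eq_mul, mul_comm]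

theorem Bas.pt_tight (h : Bas a B) {i : Fin m} (hi : i ∈ B) (b : Fin m → ℚ) :
    a i ⬝ᵥ pt a B b = b i := by
  rw [pt, dotProduct_neg, dotProduct_sum]
  have : ∀ j ∈ B, a i ⬝ᵥ (b j • edir a B j) = if i = j then -(b i) else 0 := by
    intro j _
    rw [dotProduct_smul, h.edir_spec j hi, smul_eq_mul]
    split_ifs with hij
    · rw [hij]; ring
    · ring
  rw [sum_congr rfl this, sum_ite_eq, if_pos hi, neg_neg]

theorem Bas.eq_pt (h : Bas a B) {x : Fin n → ℚ} {b : Fin m → ℚ} (hx : ∀ i ∈ B, a i ⬝ᵥ x = b i) :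
    x = pt a B b := by
  have := h.2 (x - pt a B b) fun i hi => by
    rw [dotProduct_sub, hx i hi, h.pt_tight hi, sub_self]
  exact sub_eq_zero.1 this

theorem Bas.psi_congr (h : Bas a B) (hab : ∀ i ∈ B, a i = a' i) {k : Fin m} (hk : a k = a' k)
    {b b' : Fin m → ℚ} (hb : ∀ i ∈ B, b i = b' i) (hbk : b k = b' k) :
    psi a B k b = psi a' B k b' := by
  rw [psi_apply, psi_apply, hbk]
  congr 1
  apply sum_congr rfl
  intro j hj
  rw [h.edir_congr hab, hk, hb j hj]

theorem Bas.phi_congr (h : Bas a B) (hab : ∀ i ∈ B, a i = a' i) (i : Fin m) :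
    phi a B i = phi a' B i := by
  ext c
  simp only [LinearMap.comp_apply, phi_apply]
  rw [h.edir_congr hab]

end Pool.Agent.Q218.Local
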