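import Mathlib
set_option autoImplicit false

/-!
# Centerpoints in general position

For a finite set `P` of points in a rational vector space of dimension `d`, and finitely many linear
functionals without zeros on `P`, there is a point `z`, also without zeros, such that the sign of each
functional at `z` is its sign at at least `|P| / (d + 1)` points of `P`.
-/

namespace Pool.Agent.Q218.Local

open Finset Module

variable {E : Type*} [AddCommGroup E] [Module ℚ E] [FiniteDimensional ℚ E]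

/-- **Centerpoint theorem** for closed half-spaces. -/
theorem exists_centerpoint [DecidableEq E] (P : Finset E) :
    ∃ z : E, ∀ φ : Module.Dual ℚ E, 0 ≤ φ z →
      P.card ≤ (finrank ℚ E + 1) * (P.filter fun p => 0 ≤ φ p).card := by
  classical
  set d := finrank ℚ E with hd
  -- subsets with a small complement
  set s : Finset (Finset E) := P.powerset.filter fun Q => (d + 1) * (P \ Q).card < P.card with hs
  have h_inter : ∀ I ⊆ s, I.card ≤ d + 1 →
      (⋂ Q ∈ I, convexHull ℚ (Q : Set E)).Nonempty := by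
    intro I hI hIc
    by_contra hne
    -- every point of `P` is missed by some `Q`
    have hcov : P ⊆ I.biUnion fun Q => P \ Q := by
      intro p hp
      by_contra hp'
      apply hne
      refine ⟨p, ?_⟩
      simp only [Set.mem_iInter]
      intro Q hQ
      apply subset_convexHull
      by_contra hpQ
      exact hp' (mem_biUnion.2 ⟨Q, hQ, mem_sdiff.2 ⟨hp, hpQ⟩⟩)
    have h1 : P.card ≤ ∑ Q ∈ I, (P \ Q).card := (card_le_card hcov).trans card_biUnion_le
    have hIne : I.Nonempty := by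
      rw [nonempty_iff_ne_empty]
      rintro rfl
      apply hne
      simp
    have h2 : ∑ Q ∈ I, (d + 1) * (P \ Q).card < ∑ Q ∈ I, P.card :=
      sum_lt_sum_of_nonempty hIne fun Q hQ => by
        have := hI hQ
        rw [hs, mem_filter] at this
        exact this.2
    rw [← mul_sum, sum_const, smul_eq_mul] at h2
    have h3 : (d + 1) * P.card ≤ (d + 1) * ∑ Q ∈ I, (P \ Q).card := Nat.mul_le_mul_left _ h1
    have h4 : I.card * P.card ≤ (d + 1) * P.card := Nat.mul_le_mul_right _ hIc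
    omega
  obtain ⟨z, hz⟩ := Convex.helly_theorem' (𝕜 := ℚ) (F := fun Q : Finset E => convexHull ℚ (Q : Set E))
    (s := s) (fun Q _ => convex_convexHull ℚ _) h_inter
  simp only [Set.mem_iInter] at hz
  refine ⟨z, fun φ hφ => ?_⟩
  by_contra hlt
  push Not at hlt
  set Q := P.filter fun p => φ p < 0 with hQ
  have hPQ : P \ Q = P.filter fun p => 0 ≤ φ p := by
    ext p
    simp only [hQ, mem_sdiff, mem_filter, not_and, not_lt]
    constructor
    · rintro ⟨h1, h2⟩
      exact ⟨h1, h2 h1⟩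
    · rintro ⟨h1, h2⟩
      exact ⟨h1, fun _ => h2⟩
  have hQs : Q ∈ s := by
    rw [hs, mem_filter, mem_powerset, hPQ]
    exact ⟨filter_subset _ _, hlt⟩
  have hzQ := hz Q hQs
  have hsub : convexHull ℚ (Q : Set E) ⊆ {x | φ x < 0} := by
    apply convexHull_min
    · intro p hp
      rw [hQ, coe_filter] at hp
      exact hp.2
    · exact convex_halfSpace_lt φ.isLinear 0
  exact absurd (hsub hzQ) (not_lt.2 hφ)

omit [FiniteDimensional ℚ E] in
/-- if every point of `P` is positive, then so is the centerpoint -/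
theorem centerpoint_pos [DecidableEq E] {P : Finset E} (hP : P.Nonempty) {z : E}
    (hz : ∀ φ : Module.Dual ℚ E, 0 ≤ φ z →
      P.card ≤ (finrank ℚ E + 1) * (P.filter fun p => 0 ≤ φ p).card)
    {φ : Module.Dual ℚ E} (h : ∀ p ∈ P, 0 < φ p) : 0 < φ z := by
  by_contra hle
  push Not at hle
  have h1 := hz (-φ) (by simpa using hle)
  have h2 : (P.filter fun p => 0 ≤ (-φ) p) = ∅ := by
    rw [filter_eq_empty_iff]
    intro p hp
    have := h p hp
    simp only [LinearMap.neg_apply]
    linarith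
  rw [h2, card_empty, mul_zero] at h1
  have := hP.card_pos
  omega

omit [FiniteDimensional ℚ E] in
/-- a small step from `z` towards `p₀` -/
theorem exists_near (Φ : Finset (Module.Dual ℚ E)) (z p₀ : E)
    (h : ∀ φ ∈ Φ, φ z ≠ 0 ∨ φ p₀ ≠ 0) :
    ∃ z' : E, ∀ φ ∈ Φ, φ z' ≠ 0 ∧ (0 < φ z → 0 < φ z') ∧ (φ z < 0 → φ z' < 0) := by
  classical
  obtain ⟨ε, hε0, hε1, hε⟩ : ∃ ε : ℚ, 0 < ε ∧ ε < 1 ∧
      ∀ φ ∈ Φ, φ z ≠ 0 → ε * (|φ p₀| + |φ z|) < |φ z| := by
    clear h
    induction Φ using Finset.induction_on with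
    | empty => exact ⟨1 / 2, by norm_num, by norm_num, by simp⟩
    | insert φ Ψ _ ih =>
      obtain ⟨ε, h0, h1, h2⟩ := ih
      by_cases hφ : φ z = 0
      · refine ⟨ε, h0, h1, fun ψ hψ hψz => ?_⟩
        rcases mem_insert.1 hψ with rfl | hψ
        · exact absurd hφ hψz
        · exact h2 ψ hψ hψz
      · have hpos : 0 < |φ z| := abs_pos.2 hφ
        have hpos' : 0 < |φ p₀| + |φ z| := by positivity
        refine ⟨min ε (|φ z| / (2 * (|φ p₀| + |φ z|))), by positivity,
          (min_le_left _ _).trans_lt h1, fun ψ hψ hψz => ?_⟩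
        rcases mem_insert.1 hψ with rfl | hψ
        · calc min ε (|ψ z| / (2 * (|ψ p₀| + |ψ z|))) * (|ψ p₀| + |ψ z|)
              ≤ |ψ z| / (2 * (|ψ p₀| + |ψ z|)) * (|ψ p₀| + |ψ z|) :=
                mul_le_mul_of_nonneg_right (min_le_right _ _) hpos'.le
            _ = |ψ z| / 2 := by field_simp
            _ < |ψ z| := by linarith
        · refine lt_of_le_of_lt ?_ (h2 ψ hψ hψz)
          exact mul_le_mul_of_nonneg_right (min_le_left _ _) (by positivity)
  set z' : E := z + ε • (p₀ - z) with hz'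
  have hval : ∀ φ : Module.Dual ℚ E, φ z' = (1 - ε) * φ z + ε * φ p₀ := by
    intro φ
    rw [hz', map_add, map_smul, map_sub, smul_eq_mul]
    ring
  have hpos : ∀ φ ∈ Φ, 0 < φ z → 0 < φ z' := by
    intro φ hφ h
    have h1 := hε φ hφ h.ne'
    rw [abs_of_pos h] at h1
    have h2 : -|φ p₀| ≤ φ p₀ := neg_abs_le _
    rw [hval]
    nlinarith
  have hneg : ∀ φ ∈ Φ, φ z < 0 → φ z' < 0 := by
    intro φ hφ h
    have h1 := hε φ hφ h.ne
    rw [abs_of_neg h] at h1
    have h2 : φ p₀ ≤ |φ p₀| := le_abs_self _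
    rw [hval]
    nlinarith
  refine ⟨z', fun φ hφ => ⟨?_, hpos φ hφ, hneg φ hφ⟩⟩
  rcases lt_trichotomy (φ z) 0 with h' | h' | h'
  · exact (hneg φ hφ h').ne
  · rw [hval, h', mul_zero, zero_add]
    exact mul_ne_zero hε0.ne' ((h φ hφ).resolve_left (by simp [h']))
  · exact (hpos φ hφ h').ne'

omit [FiniteDimensional ℚ E] in
/-- a point which is not a zero of finitely many nonzero functionals -/
theorem exists_generic (Φ : Finset (Module.Dual ℚ E)) (hΦ : ∀ φ ∈ Φ, φ ≠ 0) :
    ∃ z : E, ∀ φ ∈ Φ, φ z ≠ 0 := by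
  classical
  induction Φ using Finset.induction_on with
  | empty => exact ⟨0, by simp⟩
  | insert φ Ψ _ ih =>
    obtain ⟨z, hz⟩ := ih fun ψ hψ => hΦ ψ (mem_insert_of_mem hψ)
    obtain ⟨y, hy⟩ : ∃ y, φ y ≠ 0 := by
      by_contra h
      push Not at h
      exact hΦ φ (mem_insert_self _ _) (LinearMap.ext h)
    obtain ⟨z', hz'⟩ := exists_near (insert φ Ψ) z y fun ψ hψ => by
      rcases mem_insert.1 hψ with rfl | hψ
      · exact Or.inr hy
      · exact Or.inl (hz ψ hψ)
    exact ⟨z', fun ψ hψ => (hz' ψ hψ).1⟩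

/-- **A centerpoint in general position.** -/
theorem exists_center (Φ : Finset (Module.Dual ℚ E)) (P : Finset E) (hP : P.Nonempty)
    (hgen : ∀ p ∈ P, ∀ φ ∈ Φ, φ p ≠ 0) :
    ∃ z : E, (∀ φ ∈ Φ, φ z ≠ 0) ∧ (∀ φ ∈ Φ, (∀ p ∈ P, 0 < φ p) → 0 < φ z) ∧
      (∀ φ ∈ Φ, 0 < φ z → P.card ≤ (finrank ℚ E + 1) * (P.filter fun p => 0 < φ p).card) ∧
      ∀ φ ∈ Φ, φ z < 0 → P.card ≤ (finrank ℚ E + 1) * (P.filter fun p => φ p < 0).card := by
  classical
  obtain ⟨z, hz⟩ := exists_centerpoint P
  obtain ⟨p₀, hp₀⟩ := hP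
  obtain ⟨z', hz'⟩ := exists_near Φ z p₀ fun φ hφ => Or.inr (hgen p₀ hp₀ φ hφ)
  refine ⟨z', fun φ hφ => (hz' φ hφ).1, ?_, ?_, ?_⟩
  · intro φ hφ h
    exact (hz' φ hφ).2.1 (centerpoint_pos ⟨p₀, hp₀⟩ hz h)
  · intro φ hφ h
    have h0 : 0 ≤ φ z := by
      by_contra hlt
      push Not at hlt
      exact absurd h ((hz' φ hφ).2.2 hlt).not_gt
    have h1 := hz φ h0
    have h2 : (P.filter fun p => 0 ≤ φ p) = P.filter fun p => 0 < φ p := by
      apply filter_congr
      intro p hp
      exact ⟨fun h => lt_of_le_of_ne h (hgen p hp φ hφ).symm, le_of_lt⟩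
    rwa [h2] at h1
  · intro φ hφ h
    have h0 : φ z ≤ 0 := by
      by_contra hlt
      push Not at hlt
      exact absurd h ((hz' φ hφ).2.1 hlt).not_gt
    have h1 := hz (-φ) (by simpa using h0)
    have h2 : (P.filter fun p => 0 ≤ (-φ) p) = P.filter fun p => φ p < 0 := by
      apply filter_congr
      intro p hp
      simp only [LinearMap.neg_apply, Left.nonneg_neg_iff]
      exact ⟨fun h => lt_of_le_of_ne h (hgen p hp φ hφ), le_of_lt⟩
    rwa [h2] at h1

end Pool.Agent.Q218.Local
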