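import Mathlib
set_option autoImplicit false

/-!
# Linear programs, and what a local pivot rule sees

Linear programs `max c x`, `a i x ≤ b i` for `i < m`, in `n` rational variables; vertices, edges,
nondegeneracy; the view of a vertex: the names and the normal vectors of the tight constraints, and
those of them which can be left along an improving edge.
-/

namespace Pool.Agent.Q218.Local

open Finset

/-- the linear program: maximise `c ⬝ᵥ x` subject to `a i ⬝ᵥ x ≤ b i` for all `i` -/
structure LP (m n : ℕ) where
  a : Fin m → Fin n → ℚ
  b : Fin m → ℚ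
  c : Fin n → ℚ

/-- What a rule sees at a vertex: `normal i = some u` if the constraint `i` is tight and has the
normal vector `u`, and `normal i = none` if it is not tight; and the set of the tight constraints
which can be left along an improving edge. -/
structure View (m n : ℕ) where
  normal : Fin m → Option (Fin n → ℚ)
  improving : Finset (Fin m)

namespace LP

variable {m n : ℕ} (P : LP m n)

/-- `x` is feasible -/
def Feasible (x : Fin n → ℚ) : Prop := ∀ i, P.a i ⬝ᵥ x ≤ P.b i

/-- the constraints which are tight at `x` -/
def tight (x : Fin n → ℚ) : Finset (Fin m) := univ.filter fun i => P.a i ⬝ᵥ x = P.b i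

/-- `x` is a vertex: it is feasible and the constraints tight at `x` have rank `n` -/
def Vertex (x : Fin n → ℚ) : Prop :=
  P.Feasible x ∧ ∀ d : Fin n → ℚ, (∀ i ∈ P.tight x, P.a i ⬝ᵥ d = 0) → d = 0

/-- `d` is the (normalised) direction of the edge at the vertex `x` on which the tight constraint `i`
is left and the other tight constraints stay tight -/
def Direction (x : Fin n → ℚ) (i : Fin m) (d : Fin n → ℚ) : Prop :=
  i ∈ P.tight x ∧ P.a i ⬝ᵥ d = -1 ∧ ∀ j ∈ P.tight x, j ≠ i → P.a j ⬝ᵥ d = 0

/-- Nondegeneracy: exactly `n` constraints are tight at every vertex, and the objective function is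
not constant on any edge. -/
def Nondegenerate : Prop :=
  ∀ x, P.Vertex x → (P.tight x).card = n ∧ ∀ i d, P.Direction x i d → P.c ⬝ᵥ d ≠ 0

/-- the constraint `i` can be left along an improving edge -/
def Improving (x : Fin n → ℚ) (i : Fin m) : Prop := ∃ d, P.Direction x i d ∧ 0 < P.c ⬝ᵥ d

/-- the edge at `x` on which `i` is left ends at the vertex `y` -/
def Edge (x : Fin n → ℚ) (i : Fin m) (y : Fin n → ℚ) : Prop :=
  ∃ (d : Fin n → ℚ) (t : ℚ), P.Direction x i d ∧ 0 < t ∧ y = x + t • d ∧ P.Vertex y

/-- the edge at `x` on which `i` is left is unbounded -/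
def UnboundedEdge (x : Fin n → ℚ) (i : Fin m) : Prop :=
  ∃ d, P.Direction x i d ∧ ∀ t : ℚ, 0 ≤ t → P.Feasible (x + t • d)

/-- `x` is an optimal solution -/
def Optimal (x : Fin n → ℚ) : Prop :=
  P.Feasible x ∧ ∀ y, P.Feasible y → P.c ⬝ᵥ y ≤ P.c ⬝ᵥ x

open Classical in
/-- what a rule sees at the vertex `x` -/
noncomputable def view (x : Fin n → ℚ) : View m n where
  normal i := if i ∈ P.tight x then some (P.a i) else none
  improving := univ.filter fun i => P.Improving x i

/-- The vertices `x 0, x 1, …, x N` are a path of improving edges. -/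
def IsPath (N : ℕ) (x : ℕ → Fin n → ℚ) : Prop :=
  (∀ t ≤ N, P.Vertex (x t)) ∧ ∀ t < N, ∃ i, P.Improving (x t) i ∧ P.Edge (x t) i (x (t + 1))

/-- A rule maps the list of the views of all vertices visited so far (the first one at the head, the
current one at the end) to the constraint which is left next, or to `none`. The vertices
`x 0, …, x N` are the complete run of the rule `r` from the vertex `v`: every step follows the
improving edge which the rule chooses, and at `x N` the rule stops and `x N` is optimal, or it
chooses an unbounded improving edge. -/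
def IsRun (r : List (View m n) → Option (Fin m)) (v : Fin n → ℚ) (N : ℕ)
    (x : ℕ → Fin n → ℚ) : Prop :=
  x 0 = v ∧ (∀ t ≤ N, P.Vertex (x t)) ∧
    (∀ t < N, ∃ i, r ((List.range (t + 1)).map fun s => P.view (x s)) = some i ∧
      P.Improving (x t) i ∧ P.Edge (x t) i (x (t + 1))) ∧
    ((r ((List.range (N + 1)).map fun s => P.view (x s)) = none ∧ P.Optimal (x N)) ∨
      ∃ i, r ((List.range (N + 1)).map fun s => P.view (x s)) = some i ∧
        P.Improving (x N) i ∧ P.UnboundedEdge (x N) i)

end LP

/-- In every nondegenerate linear program with `m` constraints and `n` variables, at most `D`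
improving edges lead from every vertex to an optimal vertex, or to a vertex with an unbounded
improving edge. -/
def Distance (m n D : ℕ) : Prop :=
  ∀ P : LP m n, P.Nondegenerate → ∀ v, P.Vertex v → ∃ N ≤ D, ∃ x : ℕ → Fin n → ℚ,
    x 0 = v ∧ P.IsPath N x ∧ (P.Optimal (x N) ∨ ∃ i, P.Improving (x N) i ∧ P.UnboundedEdge (x N) i)

end Pool.Agent.Q218.Local
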