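import Pool.Agent.Q218.Local.Reach
set_option autoImplicit false

/-!
# The number of edges of a monotone path: the recursion of Kalai and Kleitman
-/

namespace Pool.Agent.Q218.Local

open Finset Module

variable {m n : ℕ}

/-- the bound: dimension `d`, fewer than `2 ^ t` active constraints -/
def hkk : ℕ → ℕ → ℕ
  | _, 0 => 0
  | 0, _ + 1 => 0
  | d + 1, t + 1 => hkk (d + 1) t + 1 + hkk d (t + 1) + hkk (d + 1) t

theorem hkk_bound : ∀ t d : ℕ, hkk d t + 1 ≤ 2 ^ t * (d + t).choose t := by
  intro t
  induction t with
  | zero => intro d; cases d <;> simp [hkk]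
  | succ t iht =>
    intro d
    induction d with
    | zero =>
      have h1 : 1 ≤ 2 ^ (t + 1) := Nat.one_le_two_pow
      simp only [hkk, Nat.zero_add, Nat.choose_self, mul_one]
      exact h1
    | succ d ihd =>
      have h1 := iht (d + 1)
      have h2 : (d + 1 + (t + 1)).choose (t + 1) =
          (d + 1 + t).choose t + (d + (t + 1)).choose (t + 1) := by
        rw [show d + 1 + (t + 1) = (d + 1 + t) + 1 by ring, Nat.choose_succ_succ,
          show d + 1 + t = d + (t + 1) by ring]
      rw [h2, hkk, mul_add, pow_succ]
      rw [pow_succ] at ihd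
      generalize (d + 1 + t).choose t = u at *
      generalize (d + (t + 1)).choose (t + 1) = w at *
      nlinarith

open Classical in
/-- the set of the active constraints -/
noncomputable def act (P : LP m n) (F : Finset (Fin m)) (v : Fin n → ℚ) : Finset (Fin m) :=
  univ.filter fun k => Act P F v k

theorem mem_act {P : LP m n} {F : Finset (Fin m)} {v : Fin n → ℚ} {k : Fin m} :
    k ∈ act P F v ↔ Act P F v k := by
  classical
  simp [act]

theorem kalai (t : ℕ) : ∀ (d : ℕ) (P : LP m n) (F : Finset (Fin m)) (v : Fin n → ℚ), Generic P →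
    P.Vertex v → F ⊆ P.tight v → n ≤ d + F.card → (act P F v).card < 2 ^ t →
    ∃ N ≤ hkk d t, ∃ y, Reach P F N v y ∧ Ends P F y := by
  classical
  induction t with
  | zero =>
    intro d P F v hP hv hF hn hact
    refine ⟨0, Nat.zero_le _, v, rfl, ends_of_no_act hP.nondeg hv hF fun k hk => ?_⟩
    have h1 : act P F v = ∅ := by
      rw [← card_eq_zero]
      simpa using hact
    have h2 := mem_act.2 hk
    rw [h1] at h2
    simp at h2
  | succ t iht =>
    intro d
    induction d with
    | zero =>
      intro P F v hP hv hF hn _
      exact ⟨0, Nat.zero_le _, v, rfl, ends_of_dim hP.nondeg hv hF (by omega)⟩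
    | succ d ihd =>
      intro P F v hP hv hF hn hact
      have hnd := hP.nondeg
      set L := hkk (d + 1) t with hL
      -- the active constraints which can be reached
      set S' : Finset (Fin m) := (act P F v).filter fun k =>
        ∃ N ≤ L + 1, ∃ z, Reach P F N v z ∧ k ∈ P.tight z with hS'
      have hval : hkk (d + 1) (t + 1) = L + 1 + hkk d (t + 1) + L := by
        rw [hkk]
      by_cases hcard : S'.card < 2 ^ t
      · -- go on in the relaxation
        set S := P.tight v ∪ S' with hS
        have hvS : P.tight v ⊆ S := subset_union_left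
        have hact' : act (P.relax S) F v ⊆ S' := by
          intro k hk
          obtain ⟨h1, h2⟩ := relax_act hv hF hvS (mem_act.1 hk)
          rcases mem_union.1 h1 with h3 | h3
          · rw [hS', mem_filter, mem_act]
            exact ⟨h2 h3, 0, Nat.zero_le _, v, rfl, h3⟩
          · exact h3
        obtain ⟨N, hN, y, h1, h2⟩ := iht (d + 1) (P.relax S) F v (relax_generic hP S)
          (relax_vertex hv hvS) (by rw [relax_tight_eq hvS]; exact hF) hn
          ((card_le_card hact').trans_lt hcard)
        have hreach : ∀ M ≤ N + 1, ∀ z, Reach P F M v z → P.tight z ⊆ S := by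
          intro M hM z hz k hk
          rw [hS, mem_union]
          by_cases hkv : k ∈ P.tight v
          · exact Or.inl hkv
          right
          obtain ⟨h5, h6, _, h7⟩ := hz.vertex hnd hv hF
          have hM0 : M ≠ 0 := by
            rintro rfl
            rw [← show v = z from hz] at hk
            exact hkv hk
          rw [hS', mem_filter, mem_act]
          exact ⟨⟨fun hkF => hkv (hF hkF), z, h5.1, h6, hk, h7 hM0⟩, M, by omega, z, hz, hk⟩
        obtain ⟨h3, h4⟩ := relax_reach hP hv hF hreach h1 h2
        exact ⟨N, by omega, y, h3, h4⟩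
      · -- many facets can be reached
        push Not at hcard
        have hch : ∀ s : Fin m, ∃ (N : ℕ) (w : Fin n → ℚ), s ∈ S' →
            N ≤ L + 1 + hkk d (t + 1) ∧ Reach P F N v w ∧ Ends P (insert s F) w ∧
              s ∈ P.tight w := by
          intro s
          by_cases hs : s ∈ S'
          swap
          · exact ⟨0, v, fun h => absurd h hs⟩
          have hs' := hs
          rw [hS', mem_filter, mem_act] at hs'
          obtain ⟨hsa, N, hN, z, hz, hsz⟩ := hs'
          obtain ⟨h5, h6, h7, _⟩ := hz.vertex hnd hv hF
          have hFz : insert s F ⊆ P.tight z := insert_subset hsz h6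
          obtain ⟨N', hN', w, h8, h9⟩ := ihd P (insert s F) z hP h5 hFz
            (by rw [card_insert_of_notMem hsa.1]; omega)
            (by
              refine (card_le_card ?_).trans_lt hact
              intro k hk
              exact mem_act.2 ((mem_act.1 hk).face.mono h7))
          obtain ⟨_, h10, _⟩ := h8.vertex hnd h5 hFz
          exact ⟨N + N', w, fun _ => ⟨by omega, hz.trans (h8.mono (subset_insert _ _)), h9,
            h10 (mem_insert_self _ _)⟩⟩
        choose N w hNw using hch
        by_cases hunb : ∃ s ∈ S', ∃ i ∉ insert s F, P.Improving (w s) i ∧ P.UnboundedEdge (w s) i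
        · obtain ⟨s, hs, i, hi, h1, h2⟩ := hunb
          obtain ⟨h3, h4, _, _⟩ := hNw s hs
          exact ⟨N s, by omega, w s, h4, Or.inr ⟨i, fun h => hi (mem_insert_of_mem h), h1, h2⟩⟩
        have hS'ne : S'.Nonempty := by
          rw [← card_pos]
          exact (Nat.two_pow_pos t).trans_le hcard
        obtain ⟨s, hs, hmax⟩ := exists_max_image S' (fun s => P.c ⬝ᵥ w s) hS'ne
        obtain ⟨h3, h4, h5, h6⟩ := hNw s hs
        obtain ⟨h7, h8, h9, _⟩ := h4.vertex hnd hv hF
        have hact' : act P F (w s) ⊆ act P F v \ S' := by
          intro k hk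
          rw [mem_sdiff]
          refine ⟨mem_act.2 ((mem_act.1 hk).mono h9), fun hkS => ?_⟩
          obtain ⟨_, x, hx1, hx2, hx3, hx4⟩ := mem_act.1 hk
          obtain ⟨_, g2, g3, g4⟩ := hNw k hkS
          obtain ⟨g5, _⟩ := g2.vertex hnd hv hF
          rcases g3 with g3 | g3
          · have h10 := top_of_face hnd g5 g3 hx1 (insert_subset hx3 hx2)
            have h11 := hmax k hkS
            linarith
          · exact hunb ⟨k, hkS, g3⟩
        have hcard' : (act P F (w s)).card < 2 ^ t := by
          have h10 := card_le_card hact'
          have h11 : S' ⊆ act P F v := filter_subset _ _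
          rw [card_sdiff_of_subset h11] at h10
          rw [pow_succ] at hact
          omega
        obtain ⟨N', hN', y, g1, g2⟩ := iht (d + 1) P F (w s) hP h7 h8 hn hcard'
        exact ⟨N s + N', by omega, y, h4.trans g1, g2⟩

end Pool.Agent.Q218.Local
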