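import Pool.Agent.Q218.Local.Main
import Pool.Agent.Q218.Local.Kalai
set_option autoImplicit false

/-!
# The bound for the number of edges in nondegenerate linear programs
-/

namespace Pool.Agent.Q218.Local

open Finset Module

variable {m n : ℕ}

/-- a generic linear program with the same bases and improving edges -/
theorem exists_perturb (P : LP m n) (hP : P.Nondegenerate) :
    ∃ Q : LP m n, Q.a = P.a ∧ Generic Q ∧
      (∀ x, P.Vertex x → ∃ y, Q.Vertex y ∧ Q.tight y = P.tight x) ∧
      (∀ y, Q.Vertex y → ∃ x, P.Vertex x ∧ P.tight x = Q.tight y) ∧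
      ∀ x y, P.Vertex x → Q.Vertex y → P.tight x = Q.tight y →
        ∀ i, P.Improving x i ↔ Q.Improving y i := by
  classical
  obtain ⟨pb, hpb⟩ := exists_generic (PhiB P.a) (PhiB_ne P.a)
  obtain ⟨pc, hpc⟩ := exists_generic (PhiC P.a) (PhiC_ne P.a)
  obtain ⟨b, hb⟩ := exists_near (PhiB P.a) P.b pb fun φ hφ => Or.inr (hpb φ hφ)
  obtain ⟨c, hc⟩ := exists_near (PhiC P.a) P.c pc fun φ hφ => Or.inr (hpc φ hφ)
  have hgen : Generic (⟨P.a, b, c⟩ : LP m n) :=
    ⟨fun B hB k hk => (hb _ (psi_mem hB hk)).1, fun B hB i hi => (hc _ (phi_mem hB hi)).1⟩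
  refine ⟨⟨P.a, b, c⟩, rfl, hgen, ?_, ?_, ?_⟩
  · intro x hx
    have hB := hP.bas hx
    have h1 := LP.vertex_of_psi_pos (P := (⟨P.a, b, c⟩ : LP m n)) (B := P.tight x) hB
      fun k hk => (hb _ (psi_mem hB hk)).2.1 (hP.psi_pos hx hk)
    exact ⟨_, h1⟩
  · intro y hy
    set B := (⟨P.a, b, c⟩ : LP m n).tight y with hBdef
    have hB : Bas P.a B := hgen.nondeg.bas hy
    have hpos : ∀ k ∉ B, 0 ≤ psi P.a B k P.b := by
      intro k hk
      by_contra h
      have h1 := (hb _ (psi_mem hB hk)).2.2 (not_le.1 h)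
      exact absurd (hgen.nondeg.psi_pos hy hk) h1.not_gt
    have hsub : B ⊆ P.tight (pt P.a B P.b) := fun i hi => LP.mem_tight.2 (hB.pt_tight hi _)
    have hx : P.Vertex (pt P.a B P.b) := by
      refine ⟨fun k => ?_, fun d hd => hB.2 d fun i hi => hd i (hsub hi)⟩
      by_cases hk : k ∈ B
      · exact (hB.pt_tight hk _).le
      · have h1 := hpos k hk
        rw [← slack] at h1
        linarith
    refine ⟨_, hx, (eq_of_subset_of_card_le hsub ?_).symm⟩
    rw [(hP _ hx).1, hB.1]
  · intro x y hx hy hxy i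
    rw [LP.improving_iff hP hx, LP.improving_iff hgen.nondeg hy, ← hxy]
    have hB := hP.bas hx
    constructor
    · rintro ⟨h1, h2⟩
      exact ⟨h1, (hc _ (phi_mem hB h1)).2.1 h2⟩
    · rintro ⟨h1, h2⟩
      refine ⟨h1, ?_⟩
      by_contra h
      have h3 := (hc _ (phi_mem hB h1)).2.2 (lt_of_le_of_ne (not_lt.1 h) (LP.phi_ne hP hx h1))
      exact absurd h2 h3.not_gt

/-- **Paths of the length of Kalai and Kleitman.** -/
theorem distance_hkk (m n : ℕ) : Distance m n (hkk n (Nat.log 2 m + 1)) := by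
  classical
  intro P hP v hv
  obtain ⟨Q, hQa, hQ, h1, h2, h3⟩ := exists_perturb P hP
  obtain ⟨v', hv', hvt⟩ := h1 v hv
  have hnd := hQ.nondeg
  obtain ⟨N, hN, y, hr, hend⟩ := kalai (Nat.log 2 m + 1) n Q ∅ v' hQ hv' (empty_subset _)
    (by simp) (by
      have : (act Q ∅ v').card ≤ m := by
        have := card_le_univ (act Q ∅ v')
        rwa [Fintype.card_fin] at this
      exact this.trans_lt (Nat.lt_pow_succ_log_self one_lt_two m))
  -- edges of `P` are edges of `Q`, and conversely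
  have hedge : ∀ {x x' y y'} {i : Fin m}, P.Vertex x → Q.Vertex x' → P.tight x = Q.tight x' →
      P.Vertex y → Q.Vertex y' → P.tight y = Q.tight y' → (P.Edge x i y ↔ Q.Edge x' i y') := by
    intro x x' y y' i hx hx' hxx hy hy' hyy
    constructor
    · intro he
      obtain ⟨hi, _, k, hk, ht⟩ := he.tight_eq hP hx
      rw [hxx] at hi hk ht
      rw [hyy] at ht
      exact LP.edge_of_tight hnd hx' hy' hi hk ht
    · intro he
      obtain ⟨hi, _, k, hk, ht⟩ := he.tight_eq hnd hx'
      rw [← hxx] at hi hk ht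
      rw [← hyy] at ht
      exact LP.edge_of_tight hP hx hy hi hk ht
  have main : ∀ N, ∀ x x' y', P.Vertex x → Q.Vertex x' → P.tight x = Q.tight x' →
      Reach Q ∅ N x' y' → Ends Q ∅ y' → ∃ xs : ℕ → Fin n → ℚ,
        xs 0 = x ∧ P.IsPath N xs ∧
          (P.Optimal (xs N) ∨ ∃ i, P.Improving (xs N) i ∧ P.UnboundedEdge (xs N) i) := by
    intro N
    induction N with
    | zero =>
      intro x x' y' hx hx' hxx hr hend
      rw [← show x' = y' from hr] at hend
      refine ⟨fun _ => x, rfl, ⟨fun _ _ => hx, fun t ht => absurd ht (Nat.not_lt_zero _)⟩, ?_⟩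
      rcases hend with h4 | ⟨i, _, h4, h5⟩
      · left
        apply LP.optimal_of hP hx
        intro i hi
        exact h4 i (notMem_empty i) ((h3 x x' hx hx' hxx i).1 hi)
      · right
        have h4' := (h3 x x' hx hx' hxx i).2 h4
        refine ⟨i, h4', ?_⟩
        rcases LP.edge_or_unbounded hP hx ((LP.improving_iff hP hx).1 h4').1 with hu | ⟨z, hz⟩
        · exact hu
        · exfalso
          obtain ⟨z', hz', hzt⟩ := h1 z hz.vertex
          exact ((hedge hx hx' hxx hz.vertex hz' hzt.symm).1 hz).not_unbounded hnd hx' h5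
    | succ N ih =>
      rintro x x' y' hx hx' hxx ⟨i, z', _, h4, h5, h6⟩ hend
      obtain ⟨z, hz, hzt⟩ := h2 z' h5.vertex
      obtain ⟨xs, h7, h8, h9⟩ := ih z z' y' hz h5.vertex hzt h6 hend
      refine ⟨fun t => Nat.casesOn t x xs, rfl, ⟨?_, ?_⟩, h9⟩
      · intro t ht
        cases t with
        | zero => exact hx
        | succ t => exact h8.1 t (by omega)
      · intro t ht
        cases t with
        | zero =>
          refine ⟨i, (h3 x x' hx hx' hxx i).2 h4, ?_⟩
          change P.Edge x i (xs 0)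
          rw [h7]
          exact (hedge hx hx' hxx hz h5.vertex hzt).2 h5
        | succ t => exact h8.2 t (by omega)
  obtain ⟨xs, h4, h5, h6⟩ := main N v v' y hv hv' hvt.symm hr hend
  exact ⟨N, hN, xs, h4, h5, h6⟩

end Pool.Agent.Q218.Local
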