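import Pool.Agent.Q218.Local.Dist
set_option autoImplicit false

/-!
# The quasi-polynomial bound
-/

namespace Pool.Agent.Q218.Local

theorem quasi_bound (m n t : ℕ) (hnm : n ≤ m) (ht : t = Nat.log 2 m + 1) :
    4 * (m + 1) ^ 4 * (hkk n t + 1) ≤ 2 ^ (9 * t ^ 2) := by
  have hm : m + 1 ≤ 2 ^ t := by
    rw [ht]
    exact Nat.lt_pow_succ_log_self one_lt_two m
  have ht1 : 1 ≤ t := by omega
  have htt : t ≤ 2 ^ t := Nat.lt_two_pow_self.le
  have h1 : (n + t).choose t ≤ 2 ^ ((t + 1) * t) := by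
    calc (n + t).choose t ≤ (n + t) ^ t := Nat.choose_le_pow _ _
      _ ≤ (2 ^ (t + 1)) ^ t := by
        apply Nat.pow_le_pow_left
        rw [pow_succ]
        omega
      _ = 2 ^ ((t + 1) * t) := (pow_mul _ _ _).symm
  calc 4 * (m + 1) ^ 4 * (hkk n t + 1)
      ≤ 4 * (2 ^ t) ^ 4 * (2 ^ t * (n + t).choose t) :=
        Nat.mul_le_mul (Nat.mul_le_mul_left _ (Nat.pow_le_pow_left hm 4)) (hkk_bound t n)
    _ ≤ 4 * (2 ^ t) ^ 4 * (2 ^ t * 2 ^ ((t + 1) * t)) :=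
        Nat.mul_le_mul_left _ (Nat.mul_le_mul_left _ h1)
    _ = 2 ^ (2 + t * 4 + (t + (t + 1) * t)) := by
        rw [pow_add, pow_add 2 2 (t * 4), pow_add 2 t, pow_mul 2 t 4]
        norm_num
    _ ≤ 2 ^ (9 * t ^ 2) := by
        apply Nat.pow_le_pow_right (by norm_num)
        nlinarith

/-- **The theorem.** -/
theorem main (m n : ℕ) : ∃ r : List (View m n) → Option (Fin m), ∀ P : LP m n,
    P.Nondegenerate → ∀ v, P.Vertex v → ∃ N x, P.IsRun r v N x ∧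
      N ≤ 2 ^ (9 * (Nat.log 2 m + 1) ^ 2) ∧
      ∀ D, Distance m n D → N ≤ 4 * (m + 1) ^ 4 * (D + 1) := by
  obtain ⟨r, hr⟩ := exists_rule m n ⟨_, distance_hkk m n⟩
  refine ⟨r, fun P hP v hv => ?_⟩
  obtain ⟨N, x, h1, h2⟩ := hr P hP v hv
  refine ⟨N, x, h1, (h2 _ (distance_hkk m n)).trans (quasi_bound m n _ ?_ rfl), h2⟩
  have h3 := (hP v hv).1
  have h4 := Finset.card_le_univ (P.tight v)
  rw [Fintype.card_fin] at h4
  omega

end Pool.Agent.Q218.Local
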