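import Pool.Agent.Q218.Local.Vert
set_option autoImplicit false

/-!
# Rules as strategies
-/

namespace Pool.Agent.Q218.Local

open Finset

variable {m n : ℕ}

/-- the rule has reached the end of the run at `x` -/
def Stops (r : List (View m n) → Option (Fin m)) (P : LP m n) (x : Fin n → ℚ) : Prop :=
  (r [P.view x] = none ∧ P.Optimal x) ∨
    ∃ i, r [P.view x] = some i ∧ P.Improving x i ∧ P.UnboundedEdge x i

/-- the rule `r`, started at `x`, reaches the end within `N` steps -/
def Wins : ℕ → (List (View m n) → Option (Fin m)) → LP m n → (Fin n → ℚ) → Prop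
  | 0, r, P, x => Stops r P x
  | N + 1, r, P, x => Stops r P x ∨ ∃ i y, r [P.view x] = some i ∧ P.Improving x i ∧
      P.Edge x i y ∧ Wins N (fun l => r (P.view x :: l)) P y

theorem Stops.congr {r r' : List (View m n) → Option (Fin m)} {P : LP m n} {x : Fin n → ℚ}
    (h : ∀ l, r (P.view x :: l) = r' (P.view x :: l)) (hs : Stops r P x) : Stops r' P x := by
  unfold Stops at hs ⊢
  rwa [← h []]

theorem Wins.congr {r r' : List (View m n) → Option (Fin m)} {P : LP m n} {x : Fin n → ℚ}
    (h : ∀ l, r (P.view x :: l) = r' (P.view x :: l)) {N : ℕ} (hw : Wins N r P x) :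
    Wins N r' P x := by
  cases N with
  | zero => exact Stops.congr h hw
  | succ N =>
    rcases hw with hs | ⟨i, y, h1, h2, h3, h4⟩
    · exact Or.inl (hs.congr h)
    · refine Or.inr ⟨i, y, by rw [← h []]; exact h1, h2, h3, ?_⟩
      have : (fun l => r (P.view x :: l)) = fun l => r' (P.view x :: l) := funext h
      rwa [← this]

theorem Wins.mono {N : ℕ} : ∀ {M : ℕ} {r : List (View m n) → Option (Fin m)} {P : LP m n}
    {x : Fin n → ℚ}, N ≤ M → Wins N r P x → Wins M r P x := by
  induction N with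
  | zero =>
    intro M r P x _ hw
    cases M with
    | zero => exact hw
    | succ M => exact Or.inl hw
  | succ N ih =>
    intro M r P x hM hw
    cases M with
    | zero => omega
    | succ M =>
      rcases hw with hs | ⟨i, y, h1, h2, h3, h4⟩
      · exact Or.inl hs
      · exact Or.inr ⟨i, y, h1, h2, h3, ih (by omega) h4⟩

/-- one rule wins within `N` steps in all situations of `H` -/
def Good (H : Set (LP m n × (Fin n → ℚ))) (N : ℕ) : Prop :=
  ∃ r : List (View m n) → Option (Fin m), ∀ h ∈ H, Wins N r h.1 h.2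

theorem Good.mono {H H' : Set (LP m n × (Fin n → ℚ))} {N N' : ℕ} (h : Good H N) (hH : H' ⊆ H)
    (hN : N ≤ N') : Good H' N' := by
  obtain ⟨r, hr⟩ := h
  exact ⟨r, fun h hh => (hr h (hH hh)).mono hN⟩

theorem good_empty (N : ℕ) : Good (∅ : Set (LP m n × (Fin n → ℚ))) N :=
  ⟨fun _ => none, fun _ h => absurd h (Set.notMem_empty _)⟩

/-- the rule may depend on the view of the current vertex -/
theorem good_view {H : Set (LP m n × (Fin n → ℚ))} {N : ℕ}
    (h : ∀ o : View m n, Good {w ∈ H | w.1.view w.2 = o} N) : Good H N := by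
  choose r hr using h
  refine ⟨fun l => match l with
    | [] => none
    | o :: l => r o (o :: l), ?_⟩
  rintro ⟨P, x⟩ hw
  refine Wins.congr (r := r (P.view x)) ?_ (hr (P.view x) (P, x) ⟨hw, rfl⟩)
  intro l
  rfl

/-- all situations in which the next vertex is optimal -/
theorem good_stop {H : Set (LP m n × (Fin n → ℚ))} {N : ℕ}
    (h : ∀ w ∈ H, w.1.Optimal w.2) : Good H N :=
  ⟨fun _ => none, fun w hw => Wins.mono (Nat.zero_le N) (Or.inl ⟨rfl, h w hw⟩)⟩

/-- a move -/
theorem good_move {H : Set (LP m n × (Fin n → ℚ))} {N : ℕ} (i : Fin m)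
    (hi : ∀ w ∈ H, w.1.Improving w.2 i)
    (hu : ∀ w ∈ H, w.1.UnboundedEdge w.2 i ∨ ∃ y, w.1.Edge w.2 i y)
    (h : Good {w | ∃ x, (w.1, x) ∈ H ∧ w.1.Edge x i w.2} N) : Good H (N + 1) := by
  obtain ⟨r, hr⟩ := h
  refine ⟨fun l => match l with
    | [] => none
    | [_] => some i
    | _ :: l => r l, ?_⟩
  rintro ⟨P, x⟩ hw
  rcases hu _ hw with hu | ⟨y, hy⟩
  · exact Or.inl (Or.inr ⟨i, rfl, hi _ hw, hu⟩)
  · refine Or.inr ⟨i, y, rfl, hi _ hw, hy, ?_⟩
    refine Wins.congr (r := r) ?_ (hr (P, y) ⟨x, hw, hy⟩)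
    intro l
    rfl

/-- **The run of a winning rule.** -/
theorem Wins.run {N : ℕ} : ∀ {r : List (View m n) → Option (Fin m)} {P : LP m n}
    {v : Fin n → ℚ}, P.Vertex v → Wins N r P v → ∃ M ≤ N, ∃ x : ℕ → Fin n → ℚ, P.IsRun r v M x := by
  have hstop : ∀ {r : List (View m n) → Option (Fin m)} {P : LP m n} {v : Fin n → ℚ},
      P.Vertex v → Stops r P v → P.IsRun r v 0 fun _ => v := by
    intro r P v hv hs
    refine ⟨rfl, fun _ _ => hv, fun t ht => absurd ht (Nat.not_lt_zero _), ?_⟩
    simpa [Stops] using hs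
  induction N with
  | zero =>
    intro r P v hv hw
    exact ⟨0, le_refl _, _, hstop hv hw⟩
  | succ N ih =>
    intro r P v hv hw
    rcases hw with hs | ⟨i, y, h1, h2, h3, h4⟩
    · exact ⟨0, Nat.zero_le _, _, hstop hv hs⟩
    obtain ⟨M, hM, x, hx0, hxv, hxs, hxe⟩ := ih h3.vertex h4
    set x' : ℕ → Fin n → ℚ := fun t => Nat.casesOn t v x with hx'
    have hhist : ∀ t, (List.range (t + 1 + 1)).map (fun s => P.view (x' s)) =
        P.view v :: (List.range (t + 1)).map (fun s => P.view (x s)) := by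
      intro t
      rw [List.range_succ_eq_map, List.map_cons, List.map_map]
      rfl
    refine ⟨M + 1, by omega, x', rfl, ?_, ?_, ?_⟩
    · intro t ht
      cases t with
      | zero => exact hv
      | succ t => exact hxv t (by omega)
    · intro t ht
      cases t with
      | zero =>
        refine ⟨i, ?_, h2, ?_⟩
        · simpa [hx'] using h1
        · change P.Edge v i (x 0)
          rw [hx0]
          exact h3
      | succ t =>
        obtain ⟨j, hj1, hj2, hj3⟩ := hxs t (by omega)
        refine ⟨j, ?_, hj2, hj3⟩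
        rw [hhist]
        exact hj1
    · rw [hhist]
      exact hxe

end Pool.Agent.Q218.Local
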