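import Pool.Agent.Q218.Local.Phase
set_option autoImplicit false

/-!
# The main induction
-/

namespace Pool.Agent.Q218.Local

open Finset Module

variable {m n : ℕ}

theorem pot_mono {S : Finset (Fin m)} {N N' N₁ : ℕ} (h : N ≤ N') :
    pot n S N N₁ ≤ pot n S N' N₁ := by
  unfold pot
  have := tau_mono (d := m) h
  omega

theorem good_all {D : ℕ} (hnm : n ≤ m) (hD : Distance m n D) (K : ℕ) :
    ∀ (a : Fin m → Fin n → ℚ) (S : Finset (Fin m)) (Pb : Finset (Fin m → ℚ))
      (Pc : Finset (Fin n → ℚ)) (B : Finset (Fin m)), Adm a S Pb Pc →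
      pot n S Pb.card Pc.card ≤ K → Good (W a S B Pb Pc) ((D + 1) * (K + 1)) := by
  classical
  induction K with
  | zero =>
    intro a S Pb Pc B hadm hK
    exact step (M := 0) (K := 0) (fun _ _ _ _ _ _ h => absurd h (by omega)) (by omega)
      a S Pb Pc B hadm hK
  | succ K ih =>
    intro a S Pb Pc B hadm hK
    exact step (M := (D + 1) * (K + 1)) (K := K + 1)
      (fun a S Pb Pc B h1 h2 => ih a S Pb Pc B h1 (by omega)) (le_of_eq (by ring))
      a S Pb Pc B hadm hK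
where
  step {M K N : ℕ}
      (ih : ∀ (a : Fin m → Fin n → ℚ) (S : Finset (Fin m)) (Pb : Finset (Fin m → ℚ))
        (Pc : Finset (Fin n → ℚ)) (B : Finset (Fin m)), Adm a S Pb Pc →
        pot n S Pb.card Pc.card + 1 ≤ K → Good (W a S B Pb Pc) M)
      (hN : D + 1 + M ≤ N)
      (a : Fin m → Fin n → ℚ) (S : Finset (Fin m)) (Pb : Finset (Fin m → ℚ))
      (Pc : Finset (Fin n → ℚ)) (B : Finset (Fin m)) (hadm : Adm a S Pb Pc)
      (hK : pot n S Pb.card Pc.card ≤ K) : Good (W a S B Pb Pc) N := by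
    classical
    by_cases hBS : B ⊆ S
    swap
    · exact (good_discover hnm ih a S Pb Pc B hadm hK hBS).mono (Set.Subset.refl _) (by omega)
    by_cases hbas : Bas a B
    swap
    · refine (good_empty N).mono ?_ (le_refl _)
      rintro ⟨P, x⟩ ⟨h1, h2, h3, h4, _, _⟩
      exfalso
      apply hbas
      have := h1.bas h2
      rw [h3] at this
      exact this.congr fun i hi => h4 i (hBS hi)
    set Pb' := Pb.filter fun p => ∀ k ∉ B, 0 < psi a B k p with hPb'
    have hsub : W a S B Pb Pc ⊆ W a S B Pb' Pc := by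
      rintro ⟨P, x⟩ ⟨h1, h2, h3, h4, ⟨p, hp, hcp⟩, h6⟩
      refine ⟨h1, h2, h3, h4, ⟨p, ?_, hcp⟩, h6⟩
      rw [hPb', mem_filter]
      refine ⟨hp, fun k hk => ?_⟩
      have h3' : P.tight x = B := h3
      have := hcp x h2 (by rw [h3']; exact hBS) k (by rw [h3']; exact hk)
      rwa [h3'] at this
    refine Good.mono ?_ hsub (le_refl _)
    rcases Pb'.eq_empty_or_nonempty with h0 | hnb
    · refine (good_empty N).mono ?_ (le_refl _)
      rintro ⟨P, x⟩ ⟨_, _, _, _, ⟨p, hp, _⟩, _⟩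
      rw [h0] at hp
      simp at hp
    rcases Pc.eq_empty_or_nonempty with h0 | hnc
    · refine (good_empty N).mono ?_ (le_refl _)
      rintro ⟨P, x⟩ ⟨_, _, _, _, _, ⟨q, hq, _⟩⟩
      rw [h0] at hq
      simp at hq
    have hadm' : Adm a S Pb' Pc :=
      ⟨hadm.zero, fun p hp => hadm.genb p (mem_filter.1 hp).1, hadm.genc⟩
    have hK' : pot n S Pb'.card Pc.card ≤ K :=
      (pot_mono (card_le_card (filter_subset _ _))).trans hK
    obtain ⟨b, hb1, hb2, hb3, hb4⟩ := exists_center (PhiB a) Pb' hnb hadm'.genb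
    obtain ⟨c, hc1, hc2, hc3, hc4⟩ := exists_center (PhiC a) Pc hnc hadm'.genc
    rw [finrank_fin_fun] at hb3 hb4 hc3 hc4
    set Q : LP m n := ⟨a, b, c⟩ with hQ
    have hnd : Q.Nondegenerate := by
      apply nondegenerate_of_generic
      · intro B hB k hk
        exact hb1 _ (psi_mem hB hk)
      · intro B hB k hk
        exact hc1 _ (phi_mem hB hk)
    have hpos : ∀ k ∉ B, 0 < psi a B k b := by
      intro k hk
      apply hb2 _ (psi_mem hbas hk)
      intro p hp
      exact (mem_filter.1 hp).2 k hk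
    have hv := LP.vertex_of_psi_pos (P := Q) (B := B) hbas hpos
    obtain ⟨l, hl, xs, hx0, hpath, hend⟩ := hD Q hnd _ hv.1
    have h1 := good_phase hnm ih hadm' hK' hb1 hb4 hc1 hc3 hc4 Q hQ l xs hpath hend
    rw [hx0, hv.2] at h1
    exact h1.mono (Set.Subset.refl _) (by omega)

/-- **The strategy.** -/
theorem good_total {D : ℕ} (hD : Distance m n D) :
    Good {w : LP m n × (Fin n → ℚ) | w.1.Nondegenerate ∧ w.1.Vertex w.2}
      (4 * (m + 1) ^ 4 * (D + 1)) := by
  classical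
  by_cases hnm : n ≤ m
  swap
  · refine (good_empty _).mono ?_ (le_refl _)
    rintro ⟨P, x⟩ ⟨h1, h2⟩
    exfalso
    have h3 : (P.tight x).card = n := (h1 x h2).1
    have h4 := card_le_univ (P.tight x)
    rw [Fintype.card_fin] at h4
    omega
  apply good_split
  intro B
  obtain ⟨Pb, Pc, hadm, htau, hR⟩ := exists_fresh (0 : Fin m → Fin n → ℚ) ∅
    (fun _ _ => rfl) hnm
  have hpot : pot n (∅ : Finset (Fin m)) Pb.card Pc.card + 1 ≤ 4 * (m + 1) ^ 4 := by
    unfold pot
    rw [card_empty, Nat.sub_zero]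
    have h1 : m * (4 * m ^ 2 * (m + 1) + 1) + 4 * m ^ 2 * (m + 1) + 1 ≤ 4 * (m + 1) ^ 4 := by
      nlinarith [Nat.zero_le (m ^ 3), Nat.zero_le (m ^ 2), Nat.zero_le m]
    omega
  have h1 := good_all hnm hD (4 * (m + 1) ^ 4 - 1) 0 ∅ Pb Pc B hadm (by omega)
  have h2 : 1 ≤ 4 * (m + 1) ^ 4 := by
    have : 0 < 4 * (m + 1) ^ 4 := by positivity
    omega
  rw [Nat.sub_add_cancel h2] at h1
  refine h1.mono ?_ (le_of_eq (by ring))
  rintro ⟨P, x⟩ ⟨⟨h3, h4⟩, h5⟩
  have h6 := hR P h3 fun i hi => absurd hi (notMem_empty i)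
  exact ⟨h3, h4, h5, fun i hi => absurd hi (notMem_empty i), h6.1, h6.2⟩

/-- **One rule for all linear programs with `m` constraints and `n` variables.** -/
theorem exists_rule (m n : ℕ) (hex : ∃ D, Distance m n D) :
    ∃ r : List (View m n) → Option (Fin m), ∀ P : LP m n, P.Nondegenerate →
      ∀ v, P.Vertex v → ∃ N x, P.IsRun r v N x ∧
        ∀ D, Distance m n D → N ≤ 4 * (m + 1) ^ 4 * (D + 1) := by
  classical
  obtain ⟨r, hr⟩ := good_total (Nat.find_spec hex)
  refine ⟨r, fun P hP v hv => ?_⟩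
  obtain ⟨N, hN, x, hx⟩ := Wins.run hv (hr (P, v) ⟨hP, hv⟩)
  refine ⟨N, x, hx, fun D hD => hN.trans ?_⟩
  have := Nat.find_min' hex hD
  gcongr

end Pool.Agent.Q218.Local
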