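import Pool.Agent.Q218.Local.Strat
set_option autoImplicit false

/-!
# A phase: following the path of the hypothesis until the first mistake
-/

namespace Pool.Agent.Q218.Local

open Finset Module

variable {m n : ℕ}

/-- the tight constraints can be seen -/
theorem good_split {H : Set (LP m n × (Fin n → ℚ))} {N : ℕ}
    (h : ∀ B : Finset (Fin m), Good {w ∈ H | w.1.tight w.2 = B} N) : Good H N := by
  classical
  apply good_view
  intro o
  refine (h (univ.filter fun i => (o.normal i).isSome)).mono ?_ (le_refl _)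
  rintro ⟨P, x⟩ ⟨h1, ho⟩
  refine ⟨h1, ?_⟩
  ext i
  rw [mem_filter, ← ho]
  change i ∈ P.tight x ↔ i ∈ univ ∧ (if i ∈ P.tight x then some (P.a i) else none).isSome = true
  split_ifs with hi <;> simp [hi]

/-- the situations after a move -/
theorem good_succ {a : Fin m → Fin n → ℚ} {S B : Finset (Fin m)} {Pb : Finset (Fin m → ℚ)}
    {Pc : Finset (Fin n → ℚ)} {H : Set (LP m n × (Fin n → ℚ))} (hH : H ⊆ W a S B Pb Pc)
    {i : Fin m} {D : ℕ}
    (h : ∀ k ∉ B, i ∈ B → Good (W a S (insert k (B.erase i)) Pb Pc) D) :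
    Good {w | ∃ x, (w.1, x) ∈ H ∧ w.1.Edge x i w.2} D := by
  classical
  apply good_split
  intro B'
  by_cases hB' : i ∈ B ∧ ∃ k ∉ B, B' = insert k (B.erase i)
  · obtain ⟨hi, k, hk, rfl⟩ := hB'
    refine (h k hk hi).mono ?_ (le_refl _)
    rintro ⟨P, y⟩ ⟨⟨x, hx, he⟩, hy⟩
    obtain ⟨h1, h2, h3, h4, h5, h6⟩ := hH hx
    exact ⟨h1, he.vertex, hy, h4, h5, h6⟩
  · refine (good_empty D).mono ?_ (le_refl _)
    rintro ⟨P, y⟩ ⟨⟨x, hx, he⟩, hy⟩
    obtain ⟨h1, h2, h3, h4, h5, h6⟩ := hH hx
    exfalso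
    apply hB'
    have h3' : P.tight x = B := h3
    have hy' : P.tight y = B' := hy
    obtain ⟨hi, _, k, hk, hty⟩ := LP.Edge.tight_eq h1 h2 he
    rw [h3'] at hi hk hty
    exact ⟨hi, k, hk, by rw [← hy', hty]⟩

theorem good_phase {M K : ℕ} (hnm : n ≤ m)
    (ih : ∀ (a : Fin m → Fin n → ℚ) (S : Finset (Fin m)) (Pb : Finset (Fin m → ℚ))
      (Pc : Finset (Fin n → ℚ)) (B : Finset (Fin m)), Adm a S Pb Pc →
      pot n S Pb.card Pc.card + 1 ≤ K → Good (W a S B Pb Pc) M)
    {a : Fin m → Fin n → ℚ} {S : Finset (Fin m)} {Pb : Finset (Fin m → ℚ)}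
    {Pc : Finset (Fin n → ℚ)} (hadm : Adm a S Pb Pc)
    (hK : pot n S Pb.card Pc.card ≤ K)
    {b : Fin m → ℚ} (hgenb : ∀ φ ∈ PhiB a, φ b ≠ 0)
    (hcenb : ∀ φ ∈ PhiB a, φ b < 0 → Pb.card ≤ (m + 1) * (Pb.filter fun p => φ p < 0).card)
    {c : Fin n → ℚ} (hgenc : ∀ φ ∈ PhiC a, φ c ≠ 0)
    (hcenc : ∀ φ ∈ PhiC a, 0 < φ c → Pc.card ≤ (n + 1) * (Pc.filter fun p => 0 < φ p).card)
    (hcenc' : ∀ φ ∈ PhiC a, φ c < 0 → Pc.card ≤ (n + 1) * (Pc.filter fun p => φ p < 0).card)
    (Q : LP m n) (hQ : Q = ⟨a, b, c⟩) (l : ℕ) :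
    ∀ xs : ℕ → Fin n → ℚ, Q.IsPath l xs →
      (Q.Optimal (xs l) ∨ ∃ i, Q.Improving (xs l) i ∧ Q.UnboundedEdge (xs l) i) →
      Good (W a S (Q.tight (xs 0)) Pb Pc) (l + 1 + M) := by
  classical
  have hQa : Q.a = a := by rw [hQ]
  have hQb : Q.b = b := by rw [hQ]
  have hQc : Q.c = c := by rw [hQ]
  have hnd : Q.Nondegenerate := by
    apply nondegenerate_of_generic
    · intro B hB k hk
      rw [hQa] at hB ⊢
      rw [hQb]
      exact hgenb _ (psi_mem hB hk)
    · intro B hB k hk
      rw [hQa] at hB ⊢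
      rw [hQc]
      exact hgenc _ (phi_mem hB hk)
  -- a tight set which is not feasible for `Q` is a mistake
  have hmis : ∀ B : Finset (Fin m), (∀ y, Q.Vertex y → Q.tight y ≠ B) →
      Good (W a S B Pb Pc) M := by
    intro B hB
    apply good_mistakeB hnm ih hadm hK hgenb hcenb B
    rintro ⟨h1, h2⟩
    have h3 := LP.vertex_of_psi_pos (P := Q) (B := B) (by rw [hQa]; exact h1)
      (by rw [hQa, hQb]; exact h2)
    exact hB _ h3.1 h3.2
  -- improving edges
  have himp : ∀ (x : Fin n → ℚ) (i : Fin m), Q.Vertex x →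
      (Q.Improving x i ↔ i ∈ Q.tight x ∧ 0 < phi a (Q.tight x) i c) := by
    intro x i hx
    rw [LP.improving_iff hnd hx, hQa, hQc]
  have hS : ∀ x, Q.Vertex x → Q.tight x ⊆ S := by
    intro x hx i hi
    by_contra hiS
    have h1 := (hnd.bas hx).row_ne_zero hi
    rw [hQa] at h1
    exact h1 (hadm.zero i hiS)
  -- the view of a vertex agrees with the prediction, or there is a mistake
  have hview : ∀ (x : Fin n → ℚ) (N : ℕ), Q.Vertex x → M ≤ N →
      (∀ H ⊆ W a S (Q.tight x) Pb Pc, (∀ w ∈ H, ∀ i, w.1.Improving w.2 i ↔ Q.Improving x i) →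
        Good H N) → Good (W a S (Q.tight x) Pb Pc) N := by
    intro x N hx hN h
    apply good_view
    intro o
    have hbas : Bas a (Q.tight x) := by
      have := hnd.bas hx
      rwa [hQa] at this
    by_cases ho : ∀ i ∈ Q.tight x, (0 < phi a (Q.tight x) i c ↔ i ∈ o.improving)
    swap
    · exact (good_mistakeC ih hadm hK hgenc hcenc hcenc' _ (hS x hx) hbas o ho).mono
        (Set.Subset.refl _) hN
    apply h _ (Set.sep_subset _ _)
    rintro ⟨P, y⟩ ⟨⟨h1, h2, h3, h4, h5, h6⟩, hPo⟩ i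
    have h3' : P.tight y = Q.tight x := h3
    have h7 : P.Improving y i ↔ i ∈ o.improving := by
      rw [← hPo]
      change _ ↔ i ∈ univ.filter (fun i => P.Improving y i)
      simp
    change P.Improving y i ↔ _
    rw [himp x i hx]
    constructor
    · intro h8
      have hi : i ∈ Q.tight x := by
        rw [← h3']
        exact ((LP.improving_iff h1 h2).1 h8).1
      exact ⟨hi, (ho i hi).2 (h7.1 h8)⟩
    · rintro ⟨hi, h8⟩
      exact h7.2 ((ho i hi).1 h8)
  induction l with
  | zero =>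
    intro xs hpath hend
    have hx := hpath.1 0 (le_refl _)
    apply hview (xs 0) _ hx (by omega)
    intro H hH hHi
    rcases hend with hopt | ⟨i, hi, hu⟩
    · apply good_stop
      intro w hw
      obtain ⟨h1, h2, _⟩ := hH hw
      apply LP.optimal_of h1 h2
      intro i hi
      exact LP.Optimal.not_improving hnd hx hopt i ((hHi w hw i).1 hi)
    · have : Good H (M + 1) := by
        apply good_move i
        · intro w hw
          exact (hHi w hw i).2 hi
        · intro w hw
          obtain ⟨h1, h2, h3, _⟩ := hH hw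
          exact LP.edge_or_unbounded h1 h2 (((LP.improving_iff h1 h2).1 ((hHi w hw i).2 hi)).1)
        · apply good_succ hH
          intro k hk hiB
          apply hmis
          intro y hy hty
          exact LP.Edge.not_unbounded hnd hx (LP.edge_of_tight hnd hx hy hiB hk hty) hu
      exact this.mono (Set.Subset.refl _) (by omega)
  | succ l ihl =>
    intro xs hpath hend
    have hx := hpath.1 0 (Nat.zero_le _)
    obtain ⟨i, hi, he⟩ := hpath.2 0 (Nat.succ_pos _)
    have hy := hpath.1 (0 + 1) (by omega)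
    apply hview (xs 0) _ hx (by omega)
    intro H hH hHi
    have hrec := ihl (fun t => xs (t + 1)) ⟨fun t ht => hpath.1 (t + 1) (by omega),
      fun t ht => hpath.2 (t + 1) (by omega)⟩ hend
    have : Good H (l + 1 + M + 1) := by
      apply good_move i
      · intro w hw
        exact (hHi w hw i).2 hi
      · intro w hw
        obtain ⟨h1, h2, h3, _⟩ := hH hw
        exact LP.edge_or_unbounded h1 h2 (((LP.improving_iff h1 h2).1 ((hHi w hw i).2 hi)).1)
      · apply good_succ hH
        intro k hk hiB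
        by_cases hk' : insert k ((Q.tight (xs 0)).erase i) = Q.tight (xs (0 + 1))
        · rw [hk']
          exact hrec
        · refine (hmis _ ?_).mono (Set.Subset.refl _) (by omega)
          intro z hz htz
          have hez := LP.edge_of_tight hnd hx hz hiB hk htz
          have hzy : z = xs (0 + 1) := LP.Edge.unique hnd hx hez he
          rw [hzy] at htz
          exact hk' htz.symm
    exact this.mono (Set.Subset.refl _) (by omega)

end Pool.Agent.Q218.Local
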