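import Pool.Agent.Q218.Local.Vert
set_option autoImplicit false

/-!
# Monotone paths on faces and relaxations
-/

namespace Pool.Agent.Q218.Local

open Finset Module

variable {m n : ℕ}

/-- all basic solutions are in general position, also the infeasible ones -/
def Generic (P : LP m n) : Prop :=
  (∀ B, Bas P.a B → ∀ k ∉ B, psi P.a B k P.b ≠ 0) ∧
    ∀ B, Bas P.a B → ∀ i ∈ B, phi P.a B i P.c ≠ 0

theorem Generic.nondeg {P : LP m n} (h : Generic P) : P.Nondegenerate :=
  nondegenerate_of_generic h.1 h.2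

/-- a path of `N` improving edges from `x` to `y` on which the constraints `F` stay tight -/
def Reach (P : LP m n) (F : Finset (Fin m)) : ℕ → (Fin n → ℚ) → (Fin n → ℚ) → Prop
  | 0, x, y => x = y
  | N + 1, x, y => ∃ i z, i ∉ F ∧ P.Improving x i ∧ P.Edge x i z ∧ Reach P F N z y

/-- `x` is the top of the face `F`, or has an unbounded improving edge in it -/
def Ends (P : LP m n) (F : Finset (Fin m)) (x : Fin n → ℚ) : Prop :=
  (∀ i ∉ F, ¬ P.Improving x i) ∨ ∃ i ∉ F, P.Improving x i ∧ P.UnboundedEdge x i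

theorem Reach.trans {P : LP m n} {F : Finset (Fin m)} {N M : ℕ} : ∀ {x y z : Fin n → ℚ},
    Reach P F N x y → Reach P F M y z → Reach P F (N + M) x z := by
  induction N with
  | zero =>
    intro x y z h1 h2
    rw [Nat.zero_add, show x = y from h1]
    exact h2
  | succ N ih =>
    rintro x y z ⟨i, w, h1, h2, h3, h4⟩ h5
    rw [Nat.add_right_comm]
    exact ⟨i, w, h1, h2, h3, ih h4 h5⟩

theorem Reach.mono {P : LP m n} {F F' : Finset (Fin m)} (hF : F' ⊆ F) {N : ℕ} :
    ∀ {x y : Fin n → ℚ}, Reach P F N x y → Reach P F' N x y := by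
  induction N with
  | zero => exact fun h => h
  | succ N ih =>
    rintro x y ⟨i, w, h1, h2, h3, h4⟩
    exact ⟨i, w, fun h => h1 (hF h), h2, h3, ih h4⟩

theorem LP.Edge.up {P : LP m n} (h : P.Nondegenerate) {x y : Fin n → ℚ} {i : Fin m}
    (hx : P.Vertex x) (hi : P.Improving x i) (he : P.Edge x i y) : P.c ⬝ᵥ x < P.c ⬝ᵥ y := by
  obtain ⟨d', hd', hc⟩ := hi
  obtain ⟨d, t, hd, ht, rfl, _⟩ := he
  have hdd : d' = d := by
    rw [((LP.direction_iff h hx).1 hd').2, ((LP.direction_iff h hx).1 hd).2]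
  rw [hdd] at hc
  rw [dotProduct_add, dotProduct_smul, smul_eq_mul]
  nlinarith

theorem Reach.vertex {P : LP m n} (h : P.Nondegenerate) {F : Finset (Fin m)} {N : ℕ} :
    ∀ {x y : Fin n → ℚ}, P.Vertex x → F ⊆ P.tight x → Reach P F N x y →
      P.Vertex y ∧ F ⊆ P.tight y ∧ P.c ⬝ᵥ x ≤ P.c ⬝ᵥ y ∧ (N ≠ 0 → P.c ⬝ᵥ x < P.c ⬝ᵥ y) := by
  induction N with
  | zero =>
    intro x y hx hF hr
    rw [← show x = y from hr]
    exact ⟨hx, hF, le_refl _, fun h => absurd rfl h⟩
  | succ N ih =>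
    rintro x y hx hF ⟨i, z, h1, h2, h3, h4⟩
    obtain ⟨hi, hz, k, hk, hzt⟩ := h3.tight_eq h hx
    have hFz : F ⊆ P.tight z := by
      intro j hj
      rw [hzt, mem_insert, mem_erase]
      exact Or.inr ⟨fun hji => h1 (hji ▸ hj), hF hj⟩
    obtain ⟨h5, h6, h7, _⟩ := ih hz hFz h4
    have h8 := h3.up h hx h2
    exact ⟨h5, h6, (h8.trans_le h7).le, fun _ => h8.trans_le h7⟩

/-- the top of a face -/
theorem top_of_face {P : LP m n} (h : P.Nondegenerate) {F : Finset (Fin m)} {x : Fin n → ℚ}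
    (hx : P.Vertex x) (hno : ∀ i ∉ F, ¬ P.Improving x i) {y : Fin n → ℚ} (hy : P.Feasible y)
    (hF : F ⊆ P.tight y) : P.c ⬝ᵥ y ≤ P.c ⬝ᵥ x := by
  have h1 := (h.bas hx).expand (y - x)
  have h2 : P.c ⬝ᵥ (y - x) ≤ 0 := by
    rw [h1, dotProduct_neg, dotProduct_sum, neg_nonpos]
    apply sum_nonneg
    intro j hj
    rw [dotProduct_smul, smul_eq_mul, dotProduct_sub, LP.mem_tight.1 hj]
    by_cases hjF : j ∈ F
    · rw [LP.mem_tight.1 (hF hjF), sub_self, zero_mul]
    apply mul_nonneg_of_nonpos_of_nonpos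
    · have := hy j
      linarith
    · have := hno j hjF
      rw [LP.improving_iff h hx] at this
      by_contra h0
      exact this ⟨hj, not_le.1 h0⟩
  rw [dotProduct_sub] at h2
  linarith

/-- the constraints which are tight somewhere in the face `F` above `v` -/
def Act (P : LP m n) (F : Finset (Fin m)) (v : Fin n → ℚ) (k : Fin m) : Prop :=
  k ∉ F ∧ ∃ x, P.Feasible x ∧ F ⊆ P.tight x ∧ k ∈ P.tight x ∧ P.c ⬝ᵥ v < P.c ⬝ᵥ x

theorem Act.mono {P : LP m n} {F : Finset (Fin m)} {v w : Fin n → ℚ} {k : Fin m}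
    (h : Act P F w k) (hvw : P.c ⬝ᵥ v ≤ P.c ⬝ᵥ w) : Act P F v k := by
  obtain ⟨h1, x, h2, h3, h4, h5⟩ := h
  exact ⟨h1, x, h2, h3, h4, hvw.trans_lt h5⟩

theorem Act.face {P : LP m n} {F : Finset (Fin m)} {v : Fin n → ℚ} {k s : Fin m}
    (h : Act P (insert s F) v k) : Act P F v k := by
  obtain ⟨h1, x, h2, h3, h4, h5⟩ := h
  exact ⟨fun h => h1 (mem_insert_of_mem h), x, h2, (subset_insert _ _).trans h3, h4, h5⟩

/-- nothing above -/
theorem ends_of_no_act {P : LP m n} (h : P.Nondegenerate) {F : Finset (Fin m)} {v : Fin n → ℚ}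
    (hv : P.Vertex v) (hF : F ⊆ P.tight v) (hact : ∀ k, ¬ Act P F v k) : Ends P F v := by
  by_cases hno : ∀ i ∉ F, ¬ P.Improving v i
  · exact Or.inl hno
  push Not at hno
  obtain ⟨i, hiF, hi⟩ := hno
  rcases LP.edge_or_unbounded h hv ((LP.improving_iff h hv).1 hi).1 with hu | ⟨y, he⟩
  · exact Or.inr ⟨i, hiF, hi, hu⟩
  exfalso
  have hr : Reach P F 1 v y := ⟨i, y, hiF, hi, he, rfl⟩
  obtain ⟨h1, h2, _, h4⟩ := hr.vertex h hv hF
  obtain ⟨_, _, k, hk, hty⟩ := he.tight_eq h hv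
  exact hact k ⟨fun hkF => hk (hF hkF), y, h1.1, h2, by rw [hty]; exact mem_insert_self _ _,
    h4 one_ne_zero⟩

theorem ends_of_dim {P : LP m n} (h : P.Nondegenerate) {F : Finset (Fin m)} {v : Fin n → ℚ}
    (hv : P.Vertex v) (hF : F ⊆ P.tight v) (hn : n ≤ F.card) : Ends P F v := by
  left
  have : F = P.tight v := eq_of_subset_of_card_le hF (by rw [(h v hv).1]; exact hn)
  intro i hi hi'
  rw [this] at hi
  exact hi ((LP.improving_iff h hv).1 hi').1

/-! ### Relaxations -/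

open Classical in
/-- the relaxation which keeps the constraints `S` -/
noncomputable def LP.relax (P : LP m n) (S : Finset (Fin m)) : LP m n where
  a i := if i ∈ S then P.a i else 0
  b i := if i ∈ S then P.b i else 1
  c := P.c

theorem relax_a {P : LP m n} {S : Finset (Fin m)} {i : Fin m} (hi : i ∈ S) :
    (P.relax S).a i = P.a i := if_pos hi

theorem relax_b {P : LP m n} {S : Finset (Fin m)} {i : Fin m} (hi : i ∈ S) :
    (P.relax S).b i = P.b i := if_pos hi

theorem relax_tight {P : LP m n} {S : Finset (Fin m)} {x : Fin n → ℚ} {i : Fin m} :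
    i ∈ (P.relax S).tight x ↔ i ∈ S ∧ i ∈ P.tight x := by
  rw [LP.mem_tight, LP.mem_tight]
  by_cases hi : i ∈ S
  · rw [relax_a hi, relax_b hi]
    simp [hi]
  · constructor
    · intro h
      simp [LP.relax, hi] at h
    · rintro ⟨h, _⟩
      exact absurd h hi

theorem relax_tight_eq {P : LP m n} {S : Finset (Fin m)} {x : Fin n → ℚ}
    (hx : P.tight x ⊆ S) : (P.relax S).tight x = P.tight x := by
  ext i
  rw [relax_tight]
  exact ⟨fun h => h.2, fun h => ⟨hx h, h⟩⟩

theorem relax_feasible {P : LP m n} {S : Finset (Fin m)} {x : Fin n → ℚ} :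
    (P.relax S).Feasible x ↔ ∀ i ∈ S, P.a i ⬝ᵥ x ≤ P.b i := by
  constructor
  · intro h i hi
    have := h i
    rwa [relax_a hi, relax_b hi] at this
  · intro h i
    by_cases hi : i ∈ S
    · rw [relax_a hi, relax_b hi]
      exact h i hi
    · simp [LP.relax, hi]

theorem relax_vertex {P : LP m n} {S : Finset (Fin m)} {x : Fin n → ℚ} (hx : P.Vertex x)
    (hxS : P.tight x ⊆ S) : (P.relax S).Vertex x := by
  refine ⟨relax_feasible.2 fun i _ => hx.1 i, fun d hd => hx.2 d fun i hi => ?_⟩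
  have := hd i (by rw [relax_tight_eq hxS]; exact hi)
  rwa [relax_a (hxS hi)] at this

theorem relax_generic {P : LP m n} (h : Generic P) (S : Finset (Fin m)) :
    Generic (P.relax S) := by
  have key : ∀ B, Bas (P.relax S).a B → B ⊆ S ∧ Bas P.a B := by
    intro B hB
    have hBS : B ⊆ S := by
      intro i hi
      by_contra hiS
      apply hB.row_ne_zero hi
      simp [LP.relax, hiS]
    exact ⟨hBS, hB.congr fun i hi => relax_a (hBS hi)⟩
  constructor
  · intro B hB k hk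
    obtain ⟨hBS, hB'⟩ := key B hB
    by_cases hkS : k ∈ S
    · rw [hB.psi_congr (a' := P.a) (b' := P.b) (fun i hi => relax_a (hBS hi)) (relax_a hkS)
        (fun i hi => relax_b (hBS hi)) (relax_b hkS)]
      exact h.1 B hB' k hk
    · rw [psi_apply]
      have h1 : (P.relax S).a k = 0 := by simp [LP.relax, hkS]
      have h2 : (P.relax S).b k = 1 := by simp [LP.relax, hkS]
      rw [h1, h2]
      simp
  · intro B hB k hk
    obtain ⟨hBS, hB'⟩ := key B hB
    rw [hB.phi_congr (a' := P.a) (fun i hi => relax_a (hBS hi))]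
    exact h.2 B hB' k hk

theorem relax_improving {P : LP m n} {S : Finset (Fin m)} {x : Fin n → ℚ}
    (hxS : P.tight x ⊆ S) {i : Fin m} :
    (P.relax S).Improving x i ↔ P.Improving x i := by
  unfold LP.Improving
  constructor
  · rintro ⟨d, ⟨h1, h2, h3⟩, h4⟩
    rw [relax_tight_eq hxS] at h1 h3
    rw [relax_a (hxS h1)] at h2
    exact ⟨d, ⟨h1, h2, fun j hj hji => by rw [← relax_a (hxS hj)]; exact h3 j hj hji⟩, h4⟩
  · rintro ⟨d, ⟨h1, h2, h3⟩, h4⟩
    refine ⟨d, ⟨by rw [relax_tight_eq hxS]; exact h1, by rw [relax_a (hxS h1)]; exact h2,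
      fun j hj hji => ?_⟩, h4⟩
    rw [relax_tight_eq hxS] at hj
    rw [relax_a (hxS hj)]
    exact h3 j hj hji

theorem relax_edge {P : LP m n} {S : Finset (Fin m)} {x y : Fin n → ℚ}
    (hxS : P.tight x ⊆ S) (hyS : P.tight y ⊆ S) {i : Fin m} (he : P.Edge x i y) :
    (P.relax S).Edge x i y := by
  obtain ⟨d, t, ⟨h1, h2, h3⟩, ht, hy, hv⟩ := he
  refine ⟨d, t, ⟨by rw [relax_tight_eq hxS]; exact h1, by rw [relax_a (hxS h1)]; exact h2,
      fun j hj hji => ?_⟩, ht, hy, relax_vertex hv hyS⟩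
  rw [relax_tight_eq hxS] at hj
  rw [relax_a (hxS hj)]
  exact h3 j hj hji

theorem relax_unbounded {P : LP m n} {S : Finset (Fin m)} {x : Fin n → ℚ}
    (hxS : P.tight x ⊆ S) {i : Fin m} (hu : P.UnboundedEdge x i) :
    (P.relax S).UnboundedEdge x i := by
  obtain ⟨d, ⟨h1, h2, h3⟩, h4⟩ := hu
  refine ⟨d, ⟨by rw [relax_tight_eq hxS]; exact h1, by rw [relax_a (hxS h1)]; exact h2,
      fun j hj hji => ?_⟩, fun t ht => relax_feasible.2 fun i _ => h4 t ht i⟩
  rw [relax_tight_eq hxS] at hj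
  rw [relax_a (hxS hj)]
  exact h3 j hj hji

/-- one step of a path in the relaxation is a step in `P`, if the new constraint of `P` is kept -/
theorem relax_step {P : LP m n} (hP : Generic P) {S : Finset (Fin m)} {x y : Fin n → ℚ}
    (hx : P.Vertex x) (hxS : P.tight x ⊆ S) {i : Fin m} (hi : i ∈ P.tight x)
    (hS : ∀ z, P.Edge x i z → P.tight z ⊆ S) (he : (P.relax S).Edge x i y) :
    P.Edge x i y := by
  have hR := (relax_generic hP S).nondeg
  have hxR := relax_vertex hx hxS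
  rcases LP.edge_or_unbounded hP.nondeg hx hi with hu | ⟨z, hz⟩
  · exact absurd (relax_unbounded hxS hu) (he.not_unbounded hR hxR)
  · rw [LP.Edge.unique hR hxR he (relax_edge hxS (hS z hz) hz)]
    exact hz

/-- a path in the relaxation is a path in `P`, if all constraints of `P` which can be reached are
kept -/
theorem relax_reach {P : LP m n} (hP : Generic P) {S F : Finset (Fin m)} {N : ℕ} :
    ∀ {x y : Fin n → ℚ}, P.Vertex x → F ⊆ P.tight x →
      (∀ M ≤ N + 1, ∀ z, Reach P F M x z → P.tight z ⊆ S) → Reach (P.relax S) F N x y →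
      Ends (P.relax S) F y → Reach P F N x y ∧ Ends P F y := by
  induction N with
  | zero =>
    intro x y hx hF hS hr hend
    rw [← show x = y from hr] at hend ⊢
    have hxS : P.tight x ⊆ S := hS 0 (Nat.zero_le _) x rfl
    refine ⟨rfl, ?_⟩
    rcases hend with h1 | ⟨i, h1, h2, h3⟩
    · left
      intro i hi
      rw [← relax_improving hxS]
      exact h1 i hi
    · right
      have h2' := (relax_improving hxS).1 h2
      refine ⟨i, h1, h2', ?_⟩
      rcases LP.edge_or_unbounded hP.nondeg hx ((LP.improving_iff hP.nondeg hx).1 h2').1 with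
        hu | ⟨z, hz⟩
      · exact hu
      · exfalso
        have hzS := hS 1 (by omega) z ⟨i, z, h1, h2', hz, rfl⟩
        exact (relax_edge hxS hzS hz).not_unbounded (relax_generic hP S).nondeg
          (relax_vertex hx hxS) h3
  | succ N ih =>
    rintro x y hx hF hS ⟨i, z, h1, h2, h3, h4⟩ hend
    have hxS : P.tight x ⊆ S := hS 0 (Nat.zero_le _) x rfl
    have h2' := (relax_improving hxS).1 h2
    have hz := relax_step hP hx hxS ((LP.improving_iff hP.nondeg hx).1 h2').1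
      (fun z hz => hS 1 (by omega) z ⟨i, z, h1, h2', hz, rfl⟩) h3
    have hr : Reach P F 1 x z := ⟨i, z, h1, h2', hz, rfl⟩
    obtain ⟨h5, h6, _⟩ := hr.vertex hP.nondeg hx hF
    obtain ⟨h7, h8⟩ := ih h5 h6 (fun M hM w hw => hS (1 + M) (by omega) w (hr.trans hw)) h4 hend
    exact ⟨⟨i, z, h1, h2', hz, h7⟩, h8⟩

/-- a small step from `v` to `x` stays feasible -/
theorem exists_eps {P : LP m n} {S : Finset (Fin m)} {v x : Fin n → ℚ} (hv : P.Feasible v)
    (hx : ∀ i ∈ S, P.a i ⬝ᵥ x ≤ P.b i) (hS : P.tight v ⊆ S) :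
    ∃ ε : ℚ, 0 < ε ∧ ε ≤ 1 ∧ P.Feasible (v + ε • (x - v)) := by
  classical
  have key : ∀ T : Finset (Fin m), ∃ ε : ℚ, 0 < ε ∧ ε ≤ 1 ∧
      ∀ δ, 0 < δ → δ ≤ ε → ∀ i ∈ T, P.a i ⬝ᵥ (v + δ • (x - v)) ≤ P.b i := by
    intro T
    induction T using Finset.induction_on with
    | empty => exact ⟨1, one_pos, le_refl _, by simp⟩
    | insert i T _ ih =>
      obtain ⟨ε, h0, h1, h2⟩ := ih
      obtain ⟨ε', h0', h2'⟩ : ∃ ε' : ℚ, 0 < ε' ∧ ∀ δ, 0 < δ → δ ≤ 1 → δ ≤ ε' →
          P.a i ⬝ᵥ (v + δ • (x - v)) ≤ P.b i := by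
        by_cases hi : i ∈ S
        · refine ⟨1, one_pos, fun δ hδ hδ1 _ => ?_⟩
          rw [dotProduct_add, dotProduct_smul, dotProduct_sub, smul_eq_mul]
          have h3 := hv i
          have h4 := hx i hi
          nlinarith
        · have h3 : 0 < P.b i - P.a i ⬝ᵥ v := by
            rw [sub_pos]
            exact lt_of_le_of_ne (hv i) fun h' => hi (hS (LP.mem_tight.2 h'))
          set g := P.a i ⬝ᵥ (x - v) with hg
          refine ⟨(P.b i - P.a i ⬝ᵥ v) / (|g| + 1), by positivity, fun δ hδ _ hδ2 => ?_⟩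
          rw [dotProduct_add, dotProduct_smul, smul_eq_mul, ← hg]
          rw [le_div_iff₀ (by positivity)] at hδ2
          have h5 : g ≤ |g| := le_abs_self g
          have h6 : δ * g ≤ δ * (|g| + 1) := mul_le_mul_of_nonneg_left (by linarith) hδ.le
          linarith
      refine ⟨min ε ε', lt_min h0 h0', (min_le_left _ _).trans h1, fun δ hδ hδ' j hj => ?_⟩
      rcases mem_insert.1 hj with rfl | hj
      · exact h2' δ hδ ((hδ'.trans (min_le_left _ _)).trans h1) (hδ'.trans (min_le_right _ _))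
      · exact h2 δ hδ (hδ'.trans (min_le_left _ _)) j hj
  obtain ⟨ε, h0, h1, h2⟩ := key univ
  exact ⟨ε, h0, h1, fun i => h2 ε h0 (le_refl _) i (mem_univ i)⟩

/-- the constraints which are active in the relaxation and tight at `v` are active in `P` -/
theorem relax_act {P : LP m n} {S F : Finset (Fin m)} {v : Fin n → ℚ} (hv : P.Vertex v)
    (hF : F ⊆ P.tight v) (hS : P.tight v ⊆ S) {k : Fin m} (h : Act (P.relax S) F v k) :
    k ∈ S ∧ (k ∈ P.tight v → Act P F v k) := by
  obtain ⟨h1, x, h2, h3, h4, h5⟩ := h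
  refine ⟨(relax_tight.1 h4).1, fun hkv => ?_⟩
  obtain ⟨ε, h6, h7, h8⟩ := exists_eps hv.1 (relax_feasible.1 h2) hS
  have key : ∀ j, j ∈ P.tight v → j ∈ P.tight x → j ∈ P.tight (v + ε • (x - v)) := by
    intro j hj1 hj2
    rw [LP.mem_tight] at hj1 hj2 ⊢
    rw [dotProduct_add, dotProduct_smul, dotProduct_sub, hj1, hj2, sub_self, smul_zero, add_zero]
  refine ⟨h1, _, h8, fun j hj => key j (hF hj) (relax_tight.1 (h3 hj)).2,
    key k hkv (relax_tight.1 h4).2, ?_⟩
  have h5' : P.c ⬝ᵥ v < P.c ⬝ᵥ x := h5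
  rw [dotProduct_add, dotProduct_smul, dotProduct_sub, smul_eq_mul]
  nlinarith

end Pool.Agent.Q218.Local
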