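import Mathlib
set_option autoImplicit false

/-!
# The number of mistakes
-/

namespace Pool.Agent.Q218.Local

/-- a bound for the number of times a set of `N` points can shrink by the factor `d / (d + 1)` -/
noncomputable def tau (d N : ℕ) : ℕ := ⌊((d : ℝ) + 1) * Real.log N⌋₊

theorem tau_mono {d N N' : ℕ} (h : N ≤ N') : tau d N ≤ tau d N' := by
  rcases Nat.eq_zero_or_pos N with rfl | hN
  · simp [tau]
  apply Nat.floor_mono
  apply mul_le_mul_of_nonneg_left _ (by positivity)
  apply Real.log_le_log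
  · exact_mod_cast hN
  · exact_mod_cast h

theorem tau_lt {d N N' : ℕ} (hN : 0 < N') (h : (d + 1) * N' ≤ d * N) :
    tau d N' + 1 ≤ tau d N := by
  have hd : 0 < d := by
    rcases Nat.eq_zero_or_pos d with rfl | hd
    · simp at h
      omega
    · exact hd
  have hN0 : 0 < N := by
    rcases Nat.eq_zero_or_pos N with rfl | hN0
    · simp at h
      omega
    · exact hN0
  have hR : (0 : ℝ) < N' := by exact_mod_cast hN
  have hR0 : (0 : ℝ) < N := by exact_mod_cast hN0
  have hdR : (0 : ℝ) < d + 1 := by positivity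
  have hR' : ((d : ℝ) + 1) * N' ≤ d * N := by exact_mod_cast h
  have h1 : Real.log (N' / N) ≤ (N' : ℝ) / N - 1 := Real.log_le_sub_one_of_pos (by positivity)
  rw [Real.log_div hR.ne' hR0.ne'] at h1
  have h2 : (N' : ℝ) / N ≤ d / (d + 1) := by
    rw [div_le_div_iff₀ hR0 hdR]
    linarith
  have h3 : (d : ℝ) / (d + 1) = 1 - 1 / (d + 1) := by
    field_simp
    ring
  have h4 : ((d : ℝ) + 1) * Real.log N' + 1 ≤ ((d : ℝ) + 1) * Real.log N := by
    have h5 : Real.log N' - Real.log N ≤ -(1 / ((d : ℝ) + 1)) := by linarith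
    have h6 := mul_le_mul_of_nonneg_left h5 hdR.le
    have h7 : ((d : ℝ) + 1) * -(1 / ((d : ℝ) + 1)) = -1 := by
      field_simp
    rw [h7] at h6
    linarith
  have h0 : (0 : ℝ) ≤ ((d : ℝ) + 1) * Real.log N' := by
    apply mul_nonneg hdR.le
    exact Real.log_nonneg (by exact_mod_cast hN)
  unfold tau
  rw [← Nat.floor_add_one h0]
  exact Nat.floor_mono h4

theorem tau_fresh {d m N H : ℕ} (hN : N ≤ (H + 1) ^ d) (hH : H ≤ 2 ^ m * m) :
    tau d N ≤ (d + 1) * (d * (2 * m)) := by
  have h1 : tau d N ≤ tau d ((H + 1) ^ d) := tau_mono hN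
  refine h1.trans ?_
  unfold tau
  apply Nat.floor_le_of_le
  push_cast
  apply mul_le_mul_of_nonneg_left _ (by positivity)
  rw [Real.log_pow]
  apply mul_le_mul_of_nonneg_left _ (by positivity)
  have h2 : H + 1 ≤ 4 ^ m := by
    have h3 : m + 1 ≤ 2 ^ m := Nat.lt_two_pow_self
    have h4 : 1 ≤ 2 ^ m := Nat.one_le_two_pow
    calc H + 1 ≤ 2 ^ m * m + 2 ^ m := by omega
      _ = 2 ^ m * (m + 1) := by ring
      _ ≤ 2 ^ m * 2 ^ m := Nat.mul_le_mul_left _ h3
      _ = 4 ^ m := by rw [← mul_pow]; norm_num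
  have h3 : Real.log ((H : ℝ) + 1) ≤ Real.log ((4 : ℝ) ^ m) := by
    apply Real.log_le_log (by positivity)
    exact_mod_cast h2
  refine h3.trans ?_
  rw [Real.log_pow]
  have h4 : Real.log 4 ≤ 2 := by
    have h5 : Real.log 4 = 2 * Real.log 2 := by
      rw [show (4 : ℝ) = 2 ^ 2 by norm_num, Real.log_pow]
      norm_num
    have h6 : Real.log 2 ≤ 2 - 1 := Real.log_le_sub_one_of_pos (by norm_num)
    linarith
  have h5 : (0 : ℝ) ≤ m := by positivity
  nlinarith

end Pool.Agent.Q218.Local
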