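import Pool.Agent.Q218.Local.Game
import Pool.Agent.Q218.Local.Tau
set_option autoImplicit false

/-!
# The strategy
-/

namespace Pool.Agent.Q218.Local

open Finset Module

variable {m n : ℕ}

open Classical in
/-- the functionals for the right-hand sides -/
noncomputable def PhiB (a : Fin m → Fin n → ℚ) : Finset (Module.Dual ℚ (Fin m → ℚ)) :=
  (((univ : Finset (Finset (Fin m))) ×ˢ (univ : Finset (Fin m))).filter fun s =>
    Bas a s.1 ∧ s.2 ∉ s.1).image fun s => psi a s.1 s.2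

open Classical in
/-- the functionals for the objective functions -/
noncomputable def PhiC (a : Fin m → Fin n → ℚ) : Finset (Module.Dual ℚ (Fin n → ℚ)) :=
  (((univ : Finset (Finset (Fin m))) ×ˢ (univ : Finset (Fin m))).filter fun s =>
    Bas a s.1 ∧ s.2 ∈ s.1).image fun s => phi a s.1 s.2

theorem card_pairs : ((univ : Finset (Finset (Fin m))) ×ˢ (univ : Finset (Fin m))).card =
    2 ^ m * m := by
  rw [card_product, card_univ, card_univ, Fintype.card_finset, Fintype.card_fin]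

theorem card_PhiB (a : Fin m → Fin n → ℚ) : (PhiB a).card ≤ 2 ^ m * m := by
  classical
  exact card_image_le.trans ((card_filter_le _ _).trans card_pairs.le)

theorem card_PhiC (a : Fin m → Fin n → ℚ) : (PhiC a).card ≤ 2 ^ m * m := by
  classical
  exact card_image_le.trans ((card_filter_le _ _).trans card_pairs.le)

theorem psi_mem {a : Fin m → Fin n → ℚ} {B : Finset (Fin m)} {k : Fin m} (hB : Bas a B)
    (hk : k ∉ B) : psi a B k ∈ PhiB a := by
  classical
  exact mem_image.2 ⟨(B, k), mem_filter.2 ⟨mem_product.2 ⟨mem_univ _, mem_univ _⟩, hB, hk⟩, rfl⟩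

theorem phi_mem {a : Fin m → Fin n → ℚ} {B : Finset (Fin m)} {k : Fin m} (hB : Bas a B)
    (hk : k ∈ B) : phi a B k ∈ PhiC a := by
  classical
  exact mem_image.2 ⟨(B, k), mem_filter.2 ⟨mem_product.2 ⟨mem_univ _, mem_univ _⟩, hB, hk⟩, rfl⟩

theorem PhiB_ne (a : Fin m → Fin n → ℚ) : ∀ φ ∈ PhiB a, φ ≠ 0 := by
  classical
  intro φ hφ
  obtain ⟨s, hs, rfl⟩ := mem_image.1 hφ
  exact psi_ne_zero (mem_filter.1 hs).2.2

theorem PhiC_ne (a : Fin m → Fin n → ℚ) : ∀ φ ∈ PhiC a, φ ≠ 0 := by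
  classical
  intro φ hφ
  obtain ⟨s, hs, rfl⟩ := mem_image.1 hφ
  exact phi_ne_zero (mem_filter.1 hs).2.1 (mem_filter.1 hs).2.2

/-- `p` agrees with the right-hand side of `P`, as far as it can be seen with the rows `S` -/
def ConsB (a : Fin m → Fin n → ℚ) (S : Finset (Fin m)) (P : LP m n) (p : Fin m → ℚ) : Prop :=
  ∀ x, P.Vertex x → P.tight x ⊆ S → ∀ k ∉ P.tight x, 0 < psi a (P.tight x) k p

/-- `q` agrees with the objective function of `P`, as far as it can be seen with the rows `S` -/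
def ConsC (a : Fin m → Fin n → ℚ) (S : Finset (Fin m)) (P : LP m n) (q : Fin n → ℚ) : Prop :=
  ∀ x, P.Vertex x → P.tight x ⊆ S → ∀ i ∈ P.tight x,
    (0 < phi a (P.tight x) i q ↔ 0 < phi a (P.tight x) i P.c)

/-- the situations which are possible -/
def W (a : Fin m → Fin n → ℚ) (S B : Finset (Fin m)) (Pb : Finset (Fin m → ℚ))
    (Pc : Finset (Fin n → ℚ)) : Set (LP m n × (Fin n → ℚ)) :=
  {w | w.1.Nondegenerate ∧ w.1.Vertex w.2 ∧ w.1.tight w.2 = B ∧ (∀ i ∈ S, w.1.a i = a i) ∧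
    (∃ p ∈ Pb, ConsB a S w.1 p) ∧ ∃ q ∈ Pc, ConsC a S w.1 q}

/-- the parameters are admissible -/
structure Adm (a : Fin m → Fin n → ℚ) (S : Finset (Fin m)) (Pb : Finset (Fin m → ℚ))
    (Pc : Finset (Fin n → ℚ)) : Prop where
  zero : ∀ i ∉ S, a i = 0
  genb : ∀ p ∈ Pb, ∀ φ ∈ PhiB a, φ p ≠ 0
  genc : ∀ q ∈ Pc, ∀ φ ∈ PhiC a, φ q ≠ 0

/-- the potential -/
noncomputable def pot (n : ℕ) (S : Finset (Fin m)) (Nb Nc : ℕ) : ℕ :=
  (m - S.card) * (4 * m ^ 2 * (m + 1) + 1) + (tau m Nb + tau n Nc)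

/-- **New representatives.** -/
theorem exists_fresh (a : Fin m → Fin n → ℚ) (S : Finset (Fin m)) (hS : ∀ i ∉ S, a i = 0)
    (hnm : n ≤ m) :
    ∃ (Pb : Finset (Fin m → ℚ)) (Pc : Finset (Fin n → ℚ)), Adm a S Pb Pc ∧
      tau m Pb.card + tau n Pc.card ≤ 4 * m ^ 2 * (m + 1) ∧
      ∀ P : LP m n, P.Nondegenerate → (∀ i ∈ S, P.a i = a i) →
        (∃ p ∈ Pb, ConsB a S P p) ∧ ∃ q ∈ Pc, ConsC a S P q := by
  classical
  obtain ⟨Rb, hb1, hb2, hb3⟩ := exists_reps (PhiB a) (PhiB_ne a)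
  obtain ⟨Rc, hc1, hc2, hc3⟩ := exists_reps (PhiC a) (PhiC_ne a)
  refine ⟨Rb, Rc, ⟨hS, hb1, hc1⟩, ?_, ?_⟩
  · rw [finrank_fin_fun] at hb2 hc2
    have h1 := tau_fresh hb2 (card_PhiB a)
    have h2 := tau_fresh hc2 (card_PhiC a)
    have h3 : (m + 1) * (m * (2 * m)) = 2 * m ^ 2 * (m + 1) := by ring
    have h4 : (n + 1) * (n * (2 * m)) ≤ (m + 1) * (m * (2 * m)) := by gcongr
    have h5 : 4 * m ^ 2 * (m + 1) = 2 * m ^ 2 * (m + 1) + 2 * m ^ 2 * (m + 1) := by ring
    omega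
  · intro P hP hPa
    constructor
    · obtain ⟨p, hp, hpp⟩ := hb3 fun k => if k ∈ S then P.b k else 1
      refine ⟨p, hp, fun x hx hxS k hk => ?_⟩
      have hBP := hP.bas hx
      have hB : Bas a (P.tight x) := hBP.congr fun i hi => hPa i (hxS hi)
      apply (hpp _ (psi_mem hB hk)).1
      by_cases hkS : k ∈ S
      · have h1 := hP.psi_pos hx hk
        rw [hBP.psi_congr (a' := a) (b' := fun k => if k ∈ S then P.b k else 1)
          (fun i hi => hPa i (hxS hi)) (hPa k hkS) (fun i hi => by rw [if_pos (hxS hi)])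
          (by rw [if_pos hkS])] at h1
        exact h1
      · rw [psi_apply, hS k hkS, if_neg hkS]
        simp
    · obtain ⟨q, hq, hqq⟩ := hc3 P.c
      refine ⟨q, hq, fun x hx hxS i hi => ?_⟩
      have hBP := hP.bas hx
      have hB : Bas a (P.tight x) := hBP.congr fun i hi => hPa i (hxS hi)
      have h1 := hqq _ (phi_mem hB hi)
      have h2 : phi a (P.tight x) i P.c ≠ 0 := by
        rw [← hBP.phi_congr fun i hi => hPa i (hxS hi)]
        exact LP.phi_ne hP hx hi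
      constructor
      · intro h
        by_contra h3
        have h4 := h1.2 (lt_of_le_of_ne (not_lt.1 h3) h2)
        exact absurd h h4.not_gt
      · exact h1.1

/-- a new row is seen -/
theorem good_discover {D K : ℕ} (hnm : n ≤ m)
    (ih : ∀ (a : Fin m → Fin n → ℚ) (S : Finset (Fin m)) (Pb : Finset (Fin m → ℚ))
      (Pc : Finset (Fin n → ℚ)) (B : Finset (Fin m)), Adm a S Pb Pc →
      pot n S Pb.card Pc.card + 1 ≤ K → Good (W a S B Pb Pc) D)
    (a : Fin m → Fin n → ℚ) (S : Finset (Fin m)) (Pb : Finset (Fin m → ℚ))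
    (Pc : Finset (Fin n → ℚ)) (B : Finset (Fin m)) (hadm : Adm a S Pb Pc)
    (hK : pot n S Pb.card Pc.card ≤ K) (hBS : ¬ B ⊆ S) : Good (W a S B Pb Pc) D := by
  classical
  apply good_view
  intro o
  set a' : Fin m → Fin n → ℚ := fun i => if i ∈ B then (o.normal i).getD 0 else a i with ha'
  have hS' : ∀ i ∉ S ∪ B, a' i = 0 := by
    intro i hi
    rw [mem_union, not_or] at hi
    simp only [ha', if_neg hi.2]
    exact hadm.zero i hi.1
  obtain ⟨Rb, Rc, hadm', htau, hR⟩ := exists_fresh a' (S ∪ B) hS' hnm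
  refine (ih a' (S ∪ B) Rb Rc B hadm' ?_).mono ?_ (le_refl _)
  · have hcard : S.card + 1 ≤ (S ∪ B).card := by
      apply card_lt_card
      refine ⟨subset_union_left, fun h => hBS ?_⟩
      exact subset_union_right.trans h
    have hm : (S ∪ B).card ≤ m := by
      have := card_le_univ (S ∪ B)
      rwa [Fintype.card_fin] at this
    unfold pot at hK ⊢
    have h1 : m - S.card = (m - (S ∪ B).card) + ((S ∪ B).card - S.card) := by omega
    have h2 : 1 ≤ (S ∪ B).card - S.card := by omega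
    rw [h1, add_mul] at hK
    have h3 := Nat.mul_le_mul_right (4 * m ^ 2 * (m + 1) + 1) h2
    omega
  · rintro ⟨P, x⟩ ⟨⟨h1, h2, h3, h4, _, _⟩, ho⟩
    have hrow : ∀ i ∈ S ∪ B, P.a i = a' i := by
      intro i hi
      simp only [ha']
      by_cases hiB : i ∈ B
      · rw [if_pos hiB, ← ho]
        change P.a i = (if i ∈ P.tight x then some (P.a i) else none).getD 0
        rw [if_pos (by rw [← h3] at hiB; exact hiB)]
        rfl
      · rw [if_neg hiB]
        exact h4 i ((mem_union.1 hi).resolve_right hiB)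
    obtain ⟨h5, h6⟩ := hR P h1 hrow
    exact ⟨h1, h2, h3, hrow, h5, h6⟩

/-- a wrong prediction about the right-hand side -/
theorem good_mistakeB {D K : ℕ} (hnm : n ≤ m)
    (ih : ∀ (a : Fin m → Fin n → ℚ) (S : Finset (Fin m)) (Pb : Finset (Fin m → ℚ))
      (Pc : Finset (Fin n → ℚ)) (B : Finset (Fin m)), Adm a S Pb Pc →
      pot n S Pb.card Pc.card + 1 ≤ K → Good (W a S B Pb Pc) D)
    {a : Fin m → Fin n → ℚ} {S : Finset (Fin m)} {Pb : Finset (Fin m → ℚ)}
    {Pc : Finset (Fin n → ℚ)} (hadm : Adm a S Pb Pc)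
    (hK : pot n S Pb.card Pc.card ≤ K) {b : Fin m → ℚ} (hgen : ∀ φ ∈ PhiB a, φ b ≠ 0)
    (hcen : ∀ φ ∈ PhiB a, φ b < 0 → Pb.card ≤ (m + 1) * (Pb.filter fun p => φ p < 0).card)
    (B : Finset (Fin m)) (hB : ¬ (Bas a B ∧ ∀ k ∉ B, 0 < psi a B k b)) :
    Good (W a S B Pb Pc) D := by
  classical
  by_cases hBS : B ⊆ S
  swap
  · exact good_discover hnm ih a S Pb Pc B hadm hK hBS
  by_cases hbas : Bas a B
  swap
  · refine (good_empty D).mono ?_ (le_refl _)
    rintro ⟨P, x⟩ ⟨h1, h2, h3, h4, _, _⟩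
    exfalso
    apply hbas
    have := h1.bas h2
    rw [h3] at this
    exact this.congr fun i hi => h4 i (hBS hi)
  have hneg : ∃ k ∉ B, psi a B k b < 0 := by
    by_contra h
    push Not at h
    exact hB ⟨hbas, fun k hk => lt_of_le_of_ne (h k hk) (hgen _ (psi_mem hbas hk)).symm⟩
  obtain ⟨k, hk, hkneg⟩ := hneg
  set Pb' := Pb.filter fun p => ∀ k ∉ B, 0 < psi a B k p with hPb'
  have hsub : W a S B Pb Pc ⊆ W a S B Pb' Pc := by
    rintro ⟨P, x⟩ ⟨h1, h2, h3, h4, ⟨p, hp, hcp⟩, h6⟩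
    refine ⟨h1, h2, h3, h4, ⟨p, ?_, hcp⟩, h6⟩
    rw [hPb', mem_filter]
    refine ⟨hp, fun k hk => ?_⟩
    have h3' : P.tight x = B := h3
    have := hcp x h2 (by rw [h3']; exact hBS) k (by rw [h3']; exact hk)
    rwa [h3'] at this
  refine Good.mono ?_ hsub (le_refl _)
  rcases Nat.eq_zero_or_pos Pb'.card with h0 | hpos
  · refine (good_empty D).mono ?_ (le_refl _)
    rintro ⟨P, x⟩ ⟨_, _, _, _, ⟨p, hp, _⟩, _⟩
    rw [card_eq_zero] at h0
    rw [h0] at hp
    simp at hp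
  apply ih a S Pb' Pc B ⟨hadm.zero, fun p hp => hadm.genb p (mem_filter.1 hp).1, hadm.genc⟩
  have h1 := hcen _ (psi_mem hbas hk) hkneg
  have h2 : Pb'.card + (Pb.filter fun p => psi a B k p < 0).card ≤ Pb.card := by
    rw [← card_union_of_disjoint]
    · exact card_le_card (union_subset (filter_subset _ _) (filter_subset _ _))
    · rw [Finset.disjoint_left]
      intro p hp hp'
      have h3 := (mem_filter.1 hp).2 k hk
      have h4 := (mem_filter.1 hp').2
      exact absurd h3 h4.not_gt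
  have h3 : (m + 1) * Pb'.card ≤ m * Pb.card := by nlinarith
  have h4 := tau_lt hpos h3
  unfold pot at hK ⊢
  omega

/-- a wrong prediction about the objective function -/
theorem good_mistakeC {D K : ℕ}
    (ih : ∀ (a : Fin m → Fin n → ℚ) (S : Finset (Fin m)) (Pb : Finset (Fin m → ℚ))
      (Pc : Finset (Fin n → ℚ)) (B : Finset (Fin m)), Adm a S Pb Pc →
      pot n S Pb.card Pc.card + 1 ≤ K → Good (W a S B Pb Pc) D)
    {a : Fin m → Fin n → ℚ} {S : Finset (Fin m)} {Pb : Finset (Fin m → ℚ)}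
    {Pc : Finset (Fin n → ℚ)} (hadm : Adm a S Pb Pc)
    (hK : pot n S Pb.card Pc.card ≤ K) {c : Fin n → ℚ} (hgen : ∀ φ ∈ PhiC a, φ c ≠ 0)
    (hcen : ∀ φ ∈ PhiC a, 0 < φ c → Pc.card ≤ (n + 1) * (Pc.filter fun p => 0 < φ p).card)
    (hcen' : ∀ φ ∈ PhiC a, φ c < 0 → Pc.card ≤ (n + 1) * (Pc.filter fun p => φ p < 0).card)
    (B : Finset (Fin m)) (hBS : B ⊆ S) (hbas : Bas a B) (o : View m n)
    (hB : ¬ ∀ i ∈ B, (0 < phi a B i c ↔ i ∈ o.improving)) :
    Good {w ∈ W a S B Pb Pc | w.1.view w.2 = o} D := by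
  classical
  push Not at hB
  set Pc' := Pc.filter fun q => ∀ i ∈ B, (0 < phi a B i q ↔ i ∈ o.improving) with hPc'
  have hsub : {w ∈ W a S B Pb Pc | w.1.view w.2 = o} ⊆ W a S B Pb Pc' := by
    rintro ⟨P, x⟩ ⟨⟨h1, h2, h3, h4, h5, ⟨q, hq, hcq⟩⟩, ho⟩
    refine ⟨h1, h2, h3, h4, h5, q, ?_, hcq⟩
    rw [hPc', mem_filter]
    refine ⟨hq, fun i hi => ?_⟩
    have h3' : P.tight x = B := h3
    have h6 := hcq x h2 (by rw [h3']; exact hBS) i (by rw [h3']; exact hi)
    have h7 : i ∈ o.improving ↔ 0 < phi a B i P.c := by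
      rw [← ho]
      change i ∈ univ.filter (fun i => P.Improving x i) ↔ _
      rw [mem_filter, LP.improving_iff h1 h2, h3']
      have hbP := h1.bas h2
      rw [h3'] at hbP
      rw [hbP.phi_congr (a' := a) fun i hi => h4 i (hBS hi)]
      simp [hi]
    rw [h7, ← h3']
    exact h6
  refine Good.mono ?_ hsub (le_refl _)
  rcases Nat.eq_zero_or_pos Pc'.card with h0 | hpos
  · refine (good_empty D).mono ?_ (le_refl _)
    rintro ⟨P, x⟩ ⟨_, _, _, _, _, ⟨q, hq, _⟩⟩
    rw [card_eq_zero] at h0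
    rw [h0] at hq
    simp at hq
  apply ih a S Pb Pc' B ⟨hadm.zero, hadm.genb, fun q hq => hadm.genc q (mem_filter.1 hq).1⟩
  -- the points which made the same prediction are gone
  have key : ∃ R : Finset (Fin n → ℚ), R ⊆ Pc ∧ Disjoint Pc' R ∧ Pc.card ≤ (n + 1) * R.card := by
    obtain ⟨i, hi, hio⟩ := hB
    have hmem := phi_mem hbas hi
    rcases hio with ⟨h1, h2⟩ | ⟨h1, h2⟩
    · refine ⟨_, filter_subset _ _, ?_, hcen _ hmem h1⟩
      rw [Finset.disjoint_left]
      intro q hq hq'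
      exact h2 (((mem_filter.1 hq).2 i hi).1 (mem_filter.1 hq').2)
    · have h1' : phi a B i c < 0 := lt_of_le_of_ne h1 (hgen _ hmem)
      refine ⟨_, filter_subset _ _, ?_, hcen' _ hmem h1'⟩
      rw [Finset.disjoint_left]
      intro q hq hq'
      have h3 := ((mem_filter.1 hq).2 i hi).2 h2
      exact absurd h3 (mem_filter.1 hq').2.not_gt
  obtain ⟨R, hR, hdis, hRc⟩ := key
  have h2 : Pc'.card + R.card ≤ Pc.card := by
    rw [← card_union_of_disjoint hdis]
    exact card_le_card (union_subset (filter_subset _ _) hR)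
  have h3 : (n + 1) * Pc'.card ≤ n * Pc.card := by nlinarith
  have h4 := tau_lt hpos h3
  unfold pot at hK ⊢
  omega

end Pool.Agent.Q218.Local
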