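import Pool.Agent.Q218.Local.Basis
set_option autoImplicit false

/-!
# Vertices and edges of nondegenerate linear programs
-/

namespace Pool.Agent.Q218.Local

open Finset Module

namespace LP

variable {m n : ℕ} {P : LP m n} {x y d : Fin n → ℚ} {i k : Fin m}

theorem mem_tight : i ∈ P.tight x ↔ P.a i ⬝ᵥ x = P.b i := by simp [tight]

theorem Nondegenerate.bas (h : P.Nondegenerate) (hx : P.Vertex x) : Bas P.a (P.tight x) :=
  ⟨(h x hx).1, hx.2⟩

theorem Nondegenerate.eq_pt (h : P.Nondegenerate) (hx : P.Vertex x) :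
    x = pt P.a (P.tight x) P.b :=
  (h.bas hx).eq_pt fun _ hi => mem_tight.1 hi

theorem Nondegenerate.psi_pos (h : P.Nondegenerate) (hx : P.Vertex x) (hk : k ∉ P.tight x) :
    0 < psi P.a (P.tight x) k P.b := by
  rw [← slack, ← h.eq_pt hx, sub_pos]
  exact lt_of_le_of_ne (hx.1 k) fun h' => hk (mem_tight.2 h')

theorem eq_of_tight_eq (h : P.Nondegenerate) (hx : P.Vertex x) (hy : P.Vertex y)
    (hxy : P.tight x = P.tight y) : x = y := by
  rw [h.eq_pt hx, h.eq_pt hy, hxy]

theorem vertex_of_psi_pos {B : Finset (Fin m)} (hB : Bas P.a B)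
    (hpos : ∀ k ∉ B, 0 < psi P.a B k P.b) :
    P.Vertex (pt P.a B P.b) ∧ P.tight (pt P.a B P.b) = B := by
  have ht : P.tight (pt P.a B P.b) = B := by
    ext k
    rw [mem_tight]
    constructor
    · intro h
      by_contra hk
      have h1 := hpos k hk
      rw [← slack, h, sub_self] at h1
      exact lt_irrefl _ h1
    · intro h
      exact hB.pt_tight h _
  refine ⟨⟨fun k => ?_, ?_⟩, ht⟩
  · by_cases hk : k ∈ B
    · exact (hB.pt_tight hk _).le
    · have h1 := hpos k hk
      rw [← slack] at h1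
      linarith
  · rw [ht]
    exact hB.2

theorem direction_edir (h : P.Nondegenerate) (hx : P.Vertex x) (hi : i ∈ P.tight x) :
    P.Direction x i (edir P.a (P.tight x) i) := by
  refine ⟨hi, ?_, fun j hj hji => ?_⟩
  · rw [(h.bas hx).edir_spec i hi, if_pos rfl]
  · rw [(h.bas hx).edir_spec i hj, if_neg hji]

theorem direction_iff (h : P.Nondegenerate) (hx : P.Vertex x) :
    P.Direction x i d ↔ i ∈ P.tight x ∧ d = edir P.a (P.tight x) i := by
  constructor
  · rintro ⟨hi, h1, h2⟩
    refine ⟨hi, (h.bas hx).edir_unique fun j hj => ?_⟩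
    split_ifs with hji
    · rw [hji]; exact h1
    · exact h2 j hj hji
  · rintro ⟨hi, rfl⟩
    exact direction_edir h hx hi

theorem improving_iff (h : P.Nondegenerate) (hx : P.Vertex x) :
    P.Improving x i ↔ i ∈ P.tight x ∧ 0 < phi P.a (P.tight x) i P.c := by
  constructor
  · rintro ⟨d, hd, hc⟩
    obtain ⟨hi, rfl⟩ := (direction_iff h hx).1 hd
    exact ⟨hi, hc⟩
  · rintro ⟨hi, hc⟩
    exact ⟨_, direction_edir h hx hi, hc⟩

theorem phi_ne (h : P.Nondegenerate) (hx : P.Vertex x) (hi : i ∈ P.tight x) :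
    phi P.a (P.tight x) i P.c ≠ 0 :=
  (h x hx).2 i _ (direction_edir h hx hi)

/-- on an edge, the end vertex has one new tight constraint -/
theorem Edge.tight_eq (h : P.Nondegenerate) (hx : P.Vertex x) (he : P.Edge x i y) :
    i ∈ P.tight x ∧ P.Vertex y ∧ ∃ k ∉ P.tight x, P.tight y = insert k ((P.tight x).erase i) := by
  obtain ⟨d, t, hd, ht, rfl, hy⟩ := he
  obtain ⟨hi, h1, h2⟩ := hd
  refine ⟨hi, hy, ?_⟩
  have hsub : (P.tight x).erase i ⊆ P.tight (x + t • d) := by
    intro j hj
    rw [mem_erase] at hj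
    rw [mem_tight, dotProduct_add, dotProduct_smul, h2 j hj.2 hj.1, smul_zero, add_zero]
    exact mem_tight.1 hj.2
  have hi' : i ∉ P.tight (x + t • d) := by
    rw [mem_tight, dotProduct_add, dotProduct_smul, h1, mem_tight.1 hi, smul_eq_mul]
    intro h'
    linarith
  have hc1 := (h x hx).1
  have hc2 := (h _ hy).1
  have hpos : 0 < (P.tight x).card := card_pos.2 ⟨i, hi⟩
  have hlt : ((P.tight x).erase i).card < (P.tight (x + t • d)).card := by
    rw [card_erase_of_mem hi]
    omega
  obtain ⟨k, hk, hk'⟩ := exists_mem_notMem_of_card_lt_card hlt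
  have hkx : k ∉ P.tight x := by
    intro hkx
    exact hk' (mem_erase.2 ⟨fun hki => hi' (hki ▸ hk), hkx⟩)
  refine ⟨k, hkx, ?_⟩
  symm
  apply eq_of_subset_of_card_le
  · rw [insert_subset_iff]
    exact ⟨hk, hsub⟩
  · rw [card_insert_of_notMem hk', card_erase_of_mem hi]
    omega

theorem edge_or_unbounded (h : P.Nondegenerate) (hx : P.Vertex x) (hi : i ∈ P.tight x) :
    P.UnboundedEdge x i ∨ ∃ y, P.Edge x i y := by
  classical
  set d := edir P.a (P.tight x) i with hd
  have hdir : P.Direction x i d := direction_edir h hx hi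
  have hd1 := hdir.2.1
  have hd2 := hdir.2.2
  set K := univ.filter fun k => 0 < P.a k ⬝ᵥ d with hK
  by_cases hKe : K.Nonempty
  swap
  · left
    refine ⟨d, hdir, fun t ht k => ?_⟩
    have hk : ¬ 0 < P.a k ⬝ᵥ d := by
      intro hk
      exact hKe ⟨k, by simp [hK, hk]⟩
    rw [dotProduct_add, dotProduct_smul, smul_eq_mul]
    have h1 := hx.1 k
    have h2 : t * (P.a k ⬝ᵥ d) ≤ 0 := mul_nonpos_of_nonneg_of_nonpos ht (not_lt.1 hk)
    linarith
  right
  -- the ratio test
  obtain ⟨k, hk, hkmin⟩ := exists_min_image K (fun k => (P.b k - P.a k ⬝ᵥ x) / (P.a k ⬝ᵥ d)) hKe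
  simp only [hK, mem_filter, mem_univ, true_and] at hk hkmin
  set t := (P.b k - P.a k ⬝ᵥ x) / (P.a k ⬝ᵥ d) with ht
  have hkx : k ∉ P.tight x := by
    intro hkx
    by_cases hki : k = i
    · rw [hki, hd1] at hk
      norm_num at hk
    · rw [hd2 k hkx hki] at hk
      exact lt_irrefl _ hk
  have hslack : 0 < P.b k - P.a k ⬝ᵥ x := by
    rw [sub_pos]
    exact lt_of_le_of_ne (hx.1 k) fun h' => hkx (mem_tight.2 h')
  have htpos : 0 < t := div_pos hslack hk
  have hktight : P.a k ⬝ᵥ (x + t • d) = P.b k := by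
    rw [dotProduct_add, dotProduct_smul, smul_eq_mul, ht, div_mul_cancel₀ _ hk.ne']
    ring
  refine ⟨x + t • d, d, t, hdir, htpos, rfl, ⟨fun l => ?_, fun z hz => ?_⟩⟩
  · rw [dotProduct_add, dotProduct_smul, smul_eq_mul]
    by_cases hl : 0 < P.a l ⬝ᵥ d
    · have h1 := hkmin l hl
      rw [le_div_iff₀ hl] at h1
      linarith
    · have h1 := hx.1 l
      have h2 : t * (P.a l ⬝ᵥ d) ≤ 0 := mul_nonpos_of_nonneg_of_nonpos htpos.le (not_lt.1 hl)
      linarith
  · -- `z` is a multiple of `d`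
    have hz' : z = (-(P.a i ⬝ᵥ z)) • d := by
      have h1 := (h.bas hx).expand z
      rw [sum_eq_single i] at h1
      · rw [h1, neg_smul]
        congr 2
        rw [← h1]
      · intro j hj hji
        have : j ∈ P.tight (x + t • d) := by
          rw [mem_tight, dotProduct_add, dotProduct_smul, hd2 j hj hji, smul_zero, add_zero]
          exact mem_tight.1 hj
        rw [hz j this, zero_smul]
      · intro hi'
        exact absurd hi hi'
    have h1 := hz k (mem_tight.2 hktight)
    rw [hz', dotProduct_smul, smul_eq_mul, mul_eq_zero] at h1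
    rcases h1 with h1 | h1
    · rw [hz', h1, zero_smul]
    · exact absurd h1 hk.ne'

theorem edge_of_tight (h : P.Nondegenerate) (hx : P.Vertex x) (hy : P.Vertex y)
    (hi : i ∈ P.tight x) (hk : k ∉ P.tight x)
    (ht : P.tight y = insert k ((P.tight x).erase i)) : P.Edge x i y := by
  have hik : i ≠ k := fun h' => hk (h' ▸ hi)
  have hiy : i ∉ P.tight y := by
    rw [ht, mem_insert, mem_erase]
    rintro (h' | h')
    · exact hik h'
    · exact h'.1 rfl
  have hs : P.a i ⬝ᵥ y < P.b i :=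
    lt_of_le_of_ne (hy.1 i) fun h' => hiy (mem_tight.2 h')
  refine ⟨edir P.a (P.tight x) i, P.b i - P.a i ⬝ᵥ y, direction_edir h hx hi, sub_pos.2 hs, ?_, hy⟩
  have h1 := (h.bas hx).expand (y - x)
  rw [sum_eq_single i] at h1
  · rw [dotProduct_sub, mem_tight.1 hi, ← neg_smul, neg_sub] at h1
    rw [← h1]
    abel
  · intro j hj hji
    have hjy : j ∈ P.tight y := by
      rw [ht, mem_insert, mem_erase]
      exact Or.inr ⟨hji, hj⟩
    rw [dotProduct_sub, mem_tight.1 hj, mem_tight.1 hjy, sub_self, zero_smul]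
  · intro hi'
    exact absurd hi hi'

/-- the ray of an edge which ends is not feasible -/
theorem Edge.not_unbounded (h : P.Nondegenerate) (hx : P.Vertex x) (he : P.Edge x i y) :
    ¬ P.UnboundedEdge x i := by
  rintro ⟨d', hd', hray⟩
  obtain ⟨_, hy, k, hk, hty⟩ := he.tight_eq h hx
  obtain ⟨d, t, hd, ht, rfl, _⟩ := he
  have hdd : d' = d := by
    rw [((direction_iff h hx).1 hd').2, ((direction_iff h hx).1 hd).2]
  rw [hdd] at hray
  have hky : P.a k ⬝ᵥ (x + t • d) = P.b k := mem_tight.1 (by rw [hty]; exact mem_insert_self _ _)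
  rw [dotProduct_add, dotProduct_smul, smul_eq_mul] at hky
  have hkx : P.a k ⬝ᵥ x < P.b k := lt_of_le_of_ne (hx.1 k) fun h' => hk (mem_tight.2 h')
  have hkd : 0 < P.a k ⬝ᵥ d := by
    by_contra h0
    have := mul_nonpos_of_nonneg_of_nonpos ht.le (not_lt.1 h0)
    linarith
  have h1 := hray (t + 1) (by linarith) k
  rw [dotProduct_add, dotProduct_smul, smul_eq_mul] at h1
  nlinarith

theorem Edge.unique (h : P.Nondegenerate) (hx : P.Vertex x) {y' : Fin n → ℚ}
    (he : P.Edge x i y) (he' : P.Edge x i y') : y = y' := by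
  obtain ⟨_, hy, k, hk, hty⟩ := he.tight_eq h hx
  obtain ⟨_, hy', k', hk', hty'⟩ := he'.tight_eq h hx
  obtain ⟨d, t, hd, ht, rfl, _⟩ := he
  obtain ⟨d', t', hd', ht', rfl, _⟩ := he'
  have hdd : d' = d := by
    rw [((direction_iff h hx).1 hd').2, ((direction_iff h hx).1 hd).2]
  subst hdd
  have key : ∀ (t t' : ℚ) (k : Fin m), 0 < t → t < t' → k ∉ P.tight x →
      P.a k ⬝ᵥ (x + t • d') = P.b k → P.Feasible (x + t' • d') → False := by
    intro t t' k ht htt hk hky hf
    rw [dotProduct_add, dotProduct_smul, smul_eq_mul] at hky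
    have hkx : P.a k ⬝ᵥ x < P.b k := lt_of_le_of_ne (hx.1 k) fun h' => hk (mem_tight.2 h')
    have hkd : 0 < P.a k ⬝ᵥ d' := by
      by_contra h0
      have := mul_nonpos_of_nonneg_of_nonpos ht.le (not_lt.1 h0)
      linarith
    have h1 := hf k
    rw [dotProduct_add, dotProduct_smul, smul_eq_mul] at h1
    nlinarith
  rcases lt_trichotomy t t' with hlt | rfl | hlt
  · exact (key t t' k ht hlt hk (mem_tight.1 (by rw [hty]; exact mem_insert_self _ _)) hy'.1).elim
  · rfl
  · exact (key t' t k' ht' hlt hk' (mem_tight.1 (by rw [hty']; exact mem_insert_self _ _))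
      hy.1).elim

theorem optimal_of (h : P.Nondegenerate) (hx : P.Vertex x) (hno : ∀ i, ¬ P.Improving x i) :
    P.Optimal x := by
  refine ⟨hx.1, fun y hy => ?_⟩
  have h1 := (h.bas hx).expand (y - x)
  have h2 : P.c ⬝ᵥ (y - x) ≤ 0 := by
    rw [h1, dotProduct_neg, dotProduct_sum, neg_nonpos]
    apply sum_nonneg
    intro j hj
    rw [dotProduct_smul, smul_eq_mul, dotProduct_sub, mem_tight.1 hj]
    apply mul_nonneg_of_nonpos_of_nonpos
    · have := hy j
      linarith
    · have := hno j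
      rw [improving_iff h hx] at this
      by_contra h0
      exact this ⟨hj, not_le.1 h0⟩
  rw [dotProduct_sub] at h2
  linarith

theorem Optimal.not_improving (h : P.Nondegenerate) (hx : P.Vertex x) (ho : P.Optimal x)
    (i : Fin m) : ¬ P.Improving x i := by
  rintro ⟨d, hd, hc⟩
  rcases edge_or_unbounded h hx hd.1 with hu | ⟨y, he⟩
  · obtain ⟨d', hd', hray⟩ := hu
    have hdd : d' = d := by
      rw [((direction_iff h hx).1 hd').2, ((direction_iff h hx).1 hd).2]
    rw [hdd] at hray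
    have h1 := ho.2 _ (hray 1 zero_le_one)
    rw [dotProduct_add, dotProduct_smul, smul_eq_mul] at h1
    linarith
  · obtain ⟨d', t, hd', ht, rfl, hy⟩ := he
    have hdd : d' = d := by
      rw [((direction_iff h hx).1 hd').2, ((direction_iff h hx).1 hd).2]
    rw [hdd] at hy
    have h1 := ho.2 _ hy.1
    rw [dotProduct_add, dotProduct_smul, smul_eq_mul] at h1
    nlinarith

theorem Edge.vertex (he : P.Edge x i y) : P.Vertex y := by
  obtain ⟨_, _, _, _, _, hy⟩ := he
  exact hy

end LP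

/-- a linear program in general position is nondegenerate -/
theorem nondegenerate_of_generic {m n : ℕ} {P : LP m n}
    (hb : ∀ B, Bas P.a B → ∀ k ∉ B, psi P.a B k P.b ≠ 0)
    (hc : ∀ B, Bas P.a B → ∀ i ∈ B, phi P.a B i P.c ≠ 0) : P.Nondegenerate := by
  intro x hx
  obtain ⟨B, hBT, hB⟩ := exists_bas (P.tight x) hx.2
  have hpt : x = pt P.a B P.b := hB.eq_pt fun i hi => LP.mem_tight.1 (hBT hi)
  have hT : P.tight x = B := by
    apply Subset.antisymm _ hBT
    intro k hk
    by_contra hkB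
    apply hb B hB k hkB
    rw [← slack, ← hpt, LP.mem_tight.1 hk, sub_self]
  refine ⟨by rw [hT]; exact hB.1, fun i d hd => ?_⟩
  obtain ⟨hi, h1, h2⟩ := hd
  rw [hT] at hi h2
  have : d = edir P.a B i := hB.edir_unique fun j hj => by
    split_ifs with hji
    · rw [hji]; exact h1
    · exact h2 j hj hji
  rw [this]
  exact hc B hB i hi

end Pool.Agent.Q218.Local
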